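import Pool.Agent.R922.BN.Prod

/-!
# Orders modulo prime powers and block sums
-/

open Finset

namespace Pool.Agent.R922.BN

/-- The order of `s` modulo `p ^ k` grows like `p ^ k`. -/
lemma order_bound {p s : ℕ} (hp : p.Prime) (hs : 2 ≤ s) (hps : ¬ p ∣ s) :
    ∃ A : ℕ, ∀ k j : ℕ, 1 ≤ j → p ^ k ∣ s ^ j - 1 → p ^ (k - A) ≤ j := by
  haveI : Fact p.Prime := ⟨hp⟩
  set x := s ^ (2 * (p - 1)) with hx
  have hp2 : 2 ≤ p := hp.two_le
  have hx1 : 1 < x := by
    rw [hx]; exact Nat.one_lt_pow (by omega) (by omega)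
  have hpx : ¬ p ∣ x := by
    rw [hx]; intro h; exact hps (hp.dvd_of_dvd_pow h)
  have hdiv : p ∣ x - 1 := by
    have h1 : s ^ (p - 1) ≡ 1 [MOD p] := by
      have := Nat.ModEq.pow_totient ((Nat.Prime.coprime_iff_not_dvd hp).2 hps).symm
      rwa [Nat.totient_prime hp] at this
    have h2 : x ≡ 1 [MOD p] := by
      have := h1.pow 2
      rw [one_pow, ← pow_mul] at this
      rw [hx, mul_comm]; exact this
    exact (Nat.modEq_iff_dvd' hx1.le).1 h2.symm
  have hval : ∃ A : ℕ, ∀ j : ℕ, 1 ≤ j → padicValNat p (x ^ j - 1) = A + padicValNat p j := by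
    rcases hp.eq_two_or_odd' with h2 | hodd
    · subst h2
      refine ⟨padicValNat 2 (x - 1), ?_⟩
      intro j hj
      -- 4 ∣ x - 1
      have hsodd : ¬ 2 ∣ s := hps
      have h8 : (4 : ℤ) ∣ (x : ℤ) - 1 := by
        have hxs : x = s ^ 2 := by rw [hx]
        have hs1 : s % 2 = 1 := by omega
        obtain ⟨m, hm⟩ : ∃ m, s = 2 * m + 1 := ⟨s / 2, by omega⟩
        rw [hxs, hm]; push_cast
        exact ⟨(m:ℤ) ^ 2 + m, by ring⟩
      have h3 := Int.two_pow_sub_pow' (x := (x : ℤ)) (y := 1) j h8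
        (by intro h; exact hpx (by exact_mod_cast h))
      rw [one_pow] at h3
      have hxj : 1 < x ^ j := Nat.one_lt_pow (by omega) hx1
      have c1 : ((x : ℤ) ^ j - 1) = ((x ^ j - 1 : ℕ) : ℤ) := by
        rw [Nat.cast_sub hxj.le]; push_cast; ring
      have c2 : ((x : ℤ) - 1) = ((x - 1 : ℕ) : ℤ) := by
        rw [Nat.cast_sub hx1.le]; push_cast; ring
      rw [c1, c2] at h3
      have c3 : (2 : ℤ) = ((2 : ℕ) : ℤ) := rfl
      rw [c3, Int.natCast_emultiplicity, Int.natCast_emultiplicity] at h3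
      rw [← padicValNat_eq_emultiplicity (by omega), ← padicValNat_eq_emultiplicity (by omega)] at h3
      have c4 : emultiplicity ((2:ℕ):ℤ) (j:ℤ) = padicValNat 2 j := by
        rw [Int.natCast_emultiplicity, ← padicValNat_eq_emultiplicity (by omega)]
      rw [c4] at h3
      exact_mod_cast h3
    · refine ⟨padicValNat p (x - 1), ?_⟩
      intro j hj
      have := padicValNat.pow_sub_pow (p := p) (x := x) (y := 1) hodd hx1 hdiv hpx
        (n := j) (by omega)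
      rwa [one_pow] at this
  obtain ⟨A, hA⟩ := hval
  refine ⟨A, ?_⟩
  intro k j hj hk
  have h1 : p ^ k ∣ x ^ j - 1 := by
    refine hk.trans ?_
    rw [hx, ← pow_mul, mul_comm (2 * (p - 1)) j, pow_mul]
    have := Nat.sub_dvd_pow_sub_pow (s ^ j) 1 (2 * (p - 1))
    rwa [one_pow] at this
  have hxj : x ^ j - 1 ≠ 0 := by
    have : 1 < x ^ j := Nat.one_lt_pow (by omega) hx1
    omega
  have h2 : k ≤ A + padicValNat p j := by
    rw [← hA j hj]
    exact (padicValNat_dvd_iff_le hxj).1 h1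
  have h3 : p ^ (k - A) ∣ j := by
    rw [padicValNat_dvd_iff_le (by omega)]; omega
  exact Nat.le_of_dvd hj h3

lemma pow_dvd_of_not {q : ℤ} (hq : Prime q) {V K : ℕ} {l y : ℤ} (hl : ¬ q ^ (V + 1) ∣ l)
    (h : q ^ K ∣ l * y) (hVK : V ≤ K) : q ^ (K - V) ∣ y := by
  by_contra hno
  have ha := emultiplicity_lt_iff_not_dvd.2 hl
  have hb := emultiplicity_lt_iff_not_dvd.2 hno
  have hc := pow_dvd_iff_le_emultiplicity.1 h
  rw [emultiplicity_mul hq] at hc
  obtain ⟨a, ha'⟩ := ENat.ne_top_iff_exists.1 (ne_top_of_lt ha)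
  obtain ⟨c, hc'⟩ := ENat.ne_top_iff_exists.1 (ne_top_of_lt hb)
  rw [← ha'] at ha hc
  rw [← hc'] at hb hc
  have h1 : a < V + 1 := by exact_mod_cast ha
  have h2 : c < K - V := by exact_mod_cast hb
  have h3 : K ≤ a + c := by exact_mod_cast hc
  omega

/-- Data for the block bound. -/
structure Dat (b : ℕ) (p : Fin b → ℝ) (q : ℕ) (Q : ℕ) : Prop where
  hb : 2 ≤ b
  hp : ∀ d, 0 < p d
  hs : ∑ d, p d = 1
  q_prime : q.Prime
  qb : q ∣ b
  hQ1 : 1 ≤ Q
  hQ : ∀ θ : ℝ, ∑ a ∈ range b, ‖ph p ((θ + a) / b)‖ ^ Q ≤ 3 / 2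

/-- the rate -/
noncomputable def kap (q Q : ℕ) : ℝ := 1 - (1 - 3 / (2 * q)) / Q

lemma kap_props {q Q : ℕ} (hq : 2 ≤ q) (hQ : 1 ≤ Q) :
    0 < kap q Q ∧ kap q Q < 1 ∧ 3 / (2 * q) ≤ kap q Q ^ Q := by
  have hq' : (2:ℝ) ≤ q := by exact_mod_cast hq
  have hQ' : (1:ℝ) ≤ Q := by exact_mod_cast hQ
  set z : ℝ := 3 / (2 * q) with hz
  have hz0 : 0 < z := by positivity
  have hz1 : z < 1 := by
    rw [hz, div_lt_one (by positivity)]; linarith
  have hf : (1 - z) / Q ≤ 1 - z := div_le_self (by linarith) hQ'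
  have hf0 : 0 < (1 - z) / Q := div_pos (by linarith) (by linarith)
  refine ⟨?_, ?_, ?_⟩
  · unfold kap; rw [← hz]; linarith
  · unfold kap; rw [← hz]; linarith
  · have := one_add_mul_le_pow (a := -((1 - z) / Q)) (by linarith) Q
    unfold kap; rw [← hz]
    have e1 : (1:ℝ) + Q * -((1 - z) / Q) = z := by field_simp; ring
    rw [e1] at this
    calc z ≤ (1 + -((1 - z) / Q)) ^ Q := this
      _ = (1 - (1 - z) / Q) ^ Q := by ring_nf

section
variable {b : ℕ} {p : Fin b → ℝ} {q Q : ℕ}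

/-- Sum over a set of indices whose images are distinct modulo `b ^ K`. -/
lemma sum_inj (D : Dat b p q Q) {K : ℕ} {I : Finset ℕ} {t : ℕ → ℤ}
    (hinj : ∀ i ∈ I, ∀ j ∈ I, t i ≡ t j [ZMOD (b : ℤ) ^ K] → i = j) :
    ∑ i ∈ I, PP p K (t i) ^ Q ≤ (3 / 2) ^ K := by
  classical
  have hbK : (0:ℤ) < (b:ℤ) ^ K := by have := D.hb; positivity
  set f : ℕ → ℕ := fun i => (t i % (b:ℤ) ^ K).toNat with hf
  have hfc : ∀ i, ((f i : ℕ) : ℤ) = t i % (b:ℤ) ^ K := fun i =>
    Int.toNat_of_nonneg (Int.emod_nonneg _ hbK.ne')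
  have hPP : ∀ i, PP p K (t i) = PP p K ((f i : ℕ) : ℤ) := by
    intro i
    have h := PP_periodic p D.hb K ((f i : ℕ) : ℤ) (t i / (b:ℤ) ^ K)
    rw [← h, hfc, Int.emod_add_mul_ediv]
  calc ∑ i ∈ I, PP p K (t i) ^ Q = ∑ i ∈ I, PP p K ((f i : ℕ) : ℤ) ^ Q := by
        apply sum_congr rfl; intro i _; rw [hPP]
    _ = ∑ m ∈ I.image f, PP p K (m : ℤ) ^ Q := by
        rw [sum_image]
        intro i hi j hj hij
        apply hinj i hi j hj
        have : t i % (b:ℤ) ^ K = t j % (b:ℤ) ^ K := by rw [← hfc, ← hfc, hij]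
        exact this
    _ ≤ ∑ m ∈ range (b ^ K), PP p K (m : ℤ) ^ Q := by
        apply sum_le_sum_of_subset_of_nonneg
        · intro m hm
          obtain ⟨i, _, rfl⟩ := mem_image.1 hm
          rw [mem_range]
          have : ((f i : ℕ) : ℤ) < ((b ^ K : ℕ) : ℤ) := by
            rw [hfc]; push_cast; exact Int.emod_lt_of_pos _ hbK
          exact_mod_cast this
        · intro m _ _; exact pow_nonneg (PP_nonneg _ _ _) _
    _ ≤ _ := sum_PP_pow D.hb D.hQ K

/-- Average over such a set of size `q ^ (K - B)`. -/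
lemma avg_inj (D : Dat b p q Q) {K B : ℕ} (hKB : B ≤ K) {I : Finset ℕ} {t : ℕ → ℤ}
    (hcard : I.card = q ^ (K - B))
    (hinj : ∀ i ∈ I, ∀ j ∈ I, t i ≡ t j [ZMOD (b : ℤ) ^ K] → i = j) :
    ∑ i ∈ I, PP p K (t i) ≤ (I.card : ℝ) * ((q : ℝ) ^ B * kap q Q ^ K) := by
  have h2q : 2 ≤ q := D.q_prime.two_le
  obtain ⟨k0, k1, k2⟩ := kap_props h2q D.hQ1
  have hM : (0:ℝ) < I.card := by rw [hcard]; positivity
  obtain ⟨Q', rfl⟩ : ∃ Q', Q = Q' + 1 := ⟨Q - 1, by have := D.hQ1; omega⟩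
  set S := ∑ i ∈ I, PP p K (t i) with hS
  have hS0 : 0 ≤ S := sum_nonneg fun _ _ => PP_nonneg _ _ _
  have h1 : (S / I.card) ^ (Q' + 1) ≤ (∑ i ∈ I, PP p K (t i) ^ (Q' + 1)) / I.card := by
    have h := pow_sum_div_card_le_sum_pow (s := I) (f := fun i => PP p K (t i)) (n := Q')
      (fun i _ => PP_nonneg _ _ _)
    rw [div_pow, le_div_iff₀ hM]
    rw [div_le_iff₀ (by positivity)] at h
    rw [div_mul_eq_mul_div, div_le_iff₀ (by positivity)]
    calc S ^ (Q' + 1) * I.card ≤ ((∑ i ∈ I, PP p K (t i) ^ (Q' + 1)) * (I.card : ℝ) ^ Q') * I.card :=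
          mul_le_mul_of_nonneg_right h hM.le
      _ = _ := by ring
  have h2 := sum_inj D hinj
  have h3 : (∑ i ∈ I, PP p K (t i) ^ (Q' + 1)) / I.card ≤ ((q : ℝ) ^ B * kap q (Q' + 1) ^ K) ^ (Q' + 1) := by
    rw [div_le_iff₀ hM]
    refine h2.trans ?_
    have hqB : (1:ℝ) ≤ (q:ℝ) ^ B := one_le_pow₀ (by exact_mod_cast (by omega : 1 ≤ q))
    have e1 : (q:ℝ) ^ B ≤ ((q:ℝ) ^ B) ^ (Q' + 1) := le_self_pow₀ hqB (by omega)
    have e2 : (3 / (2 * (q:ℝ))) ^ K ≤ (kap q (Q' + 1) ^ K) ^ (Q' + 1) := by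
      rw [← pow_mul, mul_comm K, pow_mul]
      exact pow_le_pow_left₀ (by positivity) k2 K
    have e3 : (3 / 2 : ℝ) ^ K = (q:ℝ) ^ B * (3 / (2 * (q:ℝ))) ^ K * (I.card : ℝ) := by
      rw [hcard]; push_cast
      have : (q:ℝ) ^ B * (3 / (2 * (q:ℝ))) ^ K * (q:ℝ) ^ (K - B)
          = (3 / (2 * (q:ℝ))) ^ K * ((q:ℝ) ^ B * (q:ℝ) ^ (K - B)) := by ring
      rw [this, ← pow_add, Nat.add_sub_cancel' hKB, ← mul_pow]
      congr 1
      have : (q:ℝ) ≠ 0 := by positivity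
      field_simp
    rw [e3, mul_pow]
    apply mul_le_mul_of_nonneg_right _ hM.le
    exact mul_le_mul e1 e2 (by positivity) (by positivity)
  have h4 : S / I.card ≤ (q : ℝ) ^ B * kap q (Q' + 1) ^ K := by
    refine le_of_pow_le_pow_left₀ (n := Q' + 1) (by omega) (by positivity) (h1.trans h3)
  rw [div_le_iff₀ hM] at h4
  linarith

/-- The sum over an interval, for `t n = l s^n + c` with `v_q(l) ≤ V`. -/
lemma sum_block (D : Dat b p q Q) {s V A : ℕ} (hqs : ¬ q ∣ s)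
    (hA : ∀ k j : ℕ, 1 ≤ j → q ^ k ∣ s ^ j - 1 → q ^ (k - A) ≤ j)
    (hs1 : 1 ≤ s) {l c : ℤ} (hl : ¬ (q : ℤ) ^ (V + 1) ∣ l) {K N : ℕ} (hK : b ^ K ≤ N)
    (hKB : V + A ≤ K) :
    ∑ n ∈ range N, PP p K (l * (s : ℤ) ^ n + c)
      ≤ N * (2 * ((q : ℝ) ^ (V + A) * kap q Q ^ K)) := by
  classical
  have h2q : 2 ≤ q := D.q_prime.two_le
  obtain ⟨k0, k1, k2⟩ := kap_props h2q D.hQ1
  set B := V + A with hB
  set M := q ^ (K - B) with hM
  have hM0 : 0 < M := by positivity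
  have hMN : M ≤ N := by
    refine le_trans ?_ hK
    calc q ^ (K - B) ≤ q ^ K := Nat.pow_le_pow_right (by omega) (by omega)
      _ ≤ b ^ K := Nat.pow_le_pow_left (Nat.le_of_dvd (by have := D.hb; omega) D.qb) _
  -- distinctness
  have hdist : ∀ m n : ℕ, m < n → n < m + M →
      ¬ (l * (s : ℤ) ^ m + c ≡ l * (s : ℤ) ^ n + c [ZMOD (b : ℤ) ^ K]) := by
    intro m n hmn hnM hcon
    have h1 : (b : ℤ) ^ K ∣ l * (s : ℤ) ^ m * ((s : ℤ) ^ (n - m) - 1) := by
      have := hcon.dvd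
      have e1 : l * (s : ℤ) ^ n + c - (l * (s : ℤ) ^ m + c)
          = l * (s : ℤ) ^ m * ((s : ℤ) ^ (n - m) - 1) := by
        have : (s : ℤ) ^ n = (s : ℤ) ^ m * (s : ℤ) ^ (n - m) := by
          rw [← pow_add]; congr 1; omega
        rw [this]; ring
      rwa [e1] at this
    have h2 : (q : ℤ) ^ K ∣ l * (s : ℤ) ^ m * ((s : ℤ) ^ (n - m) - 1) :=
      (pow_dvd_pow_of_dvd (by exact_mod_cast D.qb) K).trans h1
    have hqp : Prime (q : ℤ) := Nat.prime_iff_prime_int.1 D.q_prime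
    have hcop : IsCoprime ((q : ℤ) ^ K) ((s : ℤ) ^ m) := by
      apply IsCoprime.pow
      rw [Nat.isCoprime_iff_coprime]
      exact (Nat.Prime.coprime_iff_not_dvd D.q_prime).2 hqs
    have h3 : (q : ℤ) ^ K ∣ l * ((s : ℤ) ^ (n - m) - 1) := by
      apply hcop.dvd_of_dvd_mul_left
      have e1 : (s : ℤ) ^ m * (l * ((s : ℤ) ^ (n - m) - 1))
        = l * (s : ℤ) ^ m * ((s : ℤ) ^ (n - m) - 1) := by ring
      rw [e1]; exact h2
    -- extract the power of q from the second factor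
    have h4 : (q : ℤ) ^ (K - V) ∣ (s : ℤ) ^ (n - m) - 1 :=
      pow_dvd_of_not hqp hl h3 (by omega)
    have h5 : q ^ (K - V) ∣ s ^ (n - m) - 1 := by
      have hpos : 1 ≤ s ^ (n - m) := Nat.one_le_pow _ _ hs1
      have : ((q ^ (K - V) : ℕ) : ℤ) ∣ ((s ^ (n - m) - 1 : ℕ) : ℤ) := by
        rw [Nat.cast_sub hpos]; push_cast; exact h4
      exact_mod_cast this
    have h6 := hA (K - V) (n - m) (by omega) h5
    have h7 : K - V - A = K - B := by omega
    rw [h7] at h6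
    omega
  -- cover by blocks
  set W := (q : ℝ) ^ B * kap q Q ^ K with hW
  have hW0 : 0 ≤ W := by positivity
  have hblock : ∀ a : ℕ, ∑ i ∈ range M, PP p K (l * (s : ℤ) ^ (M * a + i) + c) ≤ (M : ℝ) * W := by
    intro a
    have := avg_inj D (K := K) (B := B) hKB (I := range M)
      (t := fun i => l * (s : ℤ) ^ (M * a + i) + c) (by rw [card_range]) ?_
    · rwa [card_range] at this
    · intro i hi j hj hij
      rw [mem_range] at hi hj
      by_contra hne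
      rcases Nat.lt_or_gt_of_ne hne with h | h
      · exact hdist (M * a + i) (M * a + j) (by omega) (by omega) hij
      · exact hdist (M * a + j) (M * a + i) (by omega) (by omega) hij.symm
  have hcov : N ≤ M * (N / M + 1) := by
    have := Nat.div_add_mod N M
    have := Nat.mod_lt N hM0
    rw [Nat.mul_succ]; omega
  calc ∑ n ∈ range N, PP p K (l * (s : ℤ) ^ n + c)
      ≤ ∑ n ∈ range (M * (N / M + 1)), PP p K (l * (s : ℤ) ^ n + c) := by
        apply sum_le_sum_of_subset_of_nonneg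
        · intro x hx; rw [mem_range] at hx ⊢; omega
        · intro _ _ _; exact PP_nonneg _ _ _
    _ = ∑ a ∈ range (N / M + 1), ∑ i ∈ range M, PP p K (l * (s : ℤ) ^ (M * a + i) + c) := by
        rw [sum_range_mul' (fun n => PP p K (l * (s : ℤ) ^ n + c))]
    _ ≤ ∑ _a ∈ range (N / M + 1), (M : ℝ) * W := sum_le_sum fun a _ => hblock a
    _ = ((N / M + 1 : ℕ) : ℝ) * M * W := by
        rw [sum_const, card_range, nsmul_eq_mul]; ring
    _ ≤ (2 * N) * W := by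
        apply mul_le_mul_of_nonneg_right _ hW0
        have h1 : (N / M + 1) * M ≤ 2 * N := by
          have := Nat.div_mul_le_self N M
          rw [Nat.add_mul]; omega
        exact_mod_cast h1
    _ = _ := by ring

end

end Pool.Agent.R922.BN
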