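import Mathlib

/-!
# Bernoulli random reals and biased normality: definitions
-/

open MeasureTheory Filter Finset
open scoped Topology

namespace Pool.Agent.R922.BN

/-- Densities in base `b`: positive reals `p_0, …, p_{b-1}` with sum `1`. -/
structure Densities (b : ℕ) where
  /-- the densities -/
  val : Fin b → ℝ
  pos : ∀ d, 0 < val d
  sum_one : ∑ d, val d = 1

/-- The probability mass function on the digits given by the densities. -/
noncomputable def Densities.pmf {b : ℕ} (p : Densities b) : PMF (Fin b) :=
  PMF.ofFintype (fun d => ENNReal.ofReal (p.val d)) (by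
    rw [← ENNReal.ofReal_sum_of_nonneg (fun d _ => (p.pos d).le), p.sum_one, ENNReal.ofReal_one])

/-- The Bernoulli (product) measure on the sequences of base `b` digits. -/
noncomputable def bern {b : ℕ} (p : Densities b) : Measure (ℕ → Fin b) :=
  Measure.infinitePi (fun _ : ℕ => p.pmf.toMeasure)

/-- The first `m` values of the oracle for the densities `p`: the value number `i` is the list of
the integer parts of `2 ^ i * p_d`, `d < b`. -/
noncomputable def orc {b : ℕ} (p : Densities b) (m : ℕ) : List (List ℕ) :=
  (List.range m).map fun i => List.ofFn fun d => ⌊2 ^ i * p.val d⌋₊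

/-- The first `n` digits of the sequence `X`. -/
def pfx {b : ℕ} (X : ℕ → Fin b) (n : ℕ) : List ℕ := (List.range n).map fun i => (X i : ℕ)

/-- The `k`-th open set enumerated by `W` with the oracle `p`: the sequences `X` such that for some
`m` and `n` the triple (first `m` values of the oracle, `k`, first `n` digits of `X`) is in `W`. -/
def opn {b : ℕ} (p : Densities b) (W : Set (List (List ℕ) × ℕ × List ℕ)) (k : ℕ) :
    Set (ℕ → Fin b) := {X | ∃ m n : ℕ, (orc p m, k, pfx X n) ∈ W}

/-- `W` gives a Martin-Löf test for the Bernoulli measure of `p`, relative to an oracle for `p`: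
`W` is recursively enumerable and the `k`-th open set it enumerates with the oracle `p` has
measure at most `2 ^ (-k)`. -/
def IsTest {b : ℕ} (p : Densities b) (W : Set (List (List ℕ) × ℕ × List ℕ)) : Prop :=
  REPred (fun q => q ∈ W) ∧ ∀ k, bern p (opn p W k) ≤ (1 / 2) ^ k

/-- The digit sequence `X` is Martin-Löf random for the Bernoulli measure of `p` (tests relative
to an oracle for `p`). -/
def MLRandom {b : ℕ} (p : Densities b) (X : ℕ → Fin b) : Prop :=
  ∀ W, IsTest p W → ∃ k, X ∉ opn p W k

/-- The base `b` digits of `x` (after the point). -/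
noncomputable def dig (b : ℕ) [NeZero b] (x : ℝ) (i : ℕ) : Fin b :=
  Fin.ofNat b ⌊(b : ℝ) ^ (i + 1) * x⌋₊

/-- `x` is Bernoulli random in base `b` with respect to `p`. -/
def BernoulliRandom (b : ℕ) [NeZero b] (p : Densities b) (x : ℝ) : Prop := MLRandom p (dig b x)

/-- `x` is biased normal in base `b` with respect to `p`: every block `v` of `r ≥ 1` digits occurs
in the digit sequence with limiting frequency `∏ p_{v_j}`. -/
def BiasedNormal (b : ℕ) [NeZero b] (p : Densities b) (x : ℝ) : Prop :=
  ∀ r : ℕ, 1 ≤ r → ∀ v : Fin r → Fin b,
    Tendsto (fun n : ℕ =>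
      (((range n).filter (fun i => ∀ j : Fin r, dig b x (i + j) = v j)).card : ℝ) / n)
      atTop (𝓝 (∏ j, p.val (v j)))

end Pool.Agent.R922.BN
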