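import Pool.Agent.R922.BN.Words
import Pool.Agent.R922.BN.Defs

/-!
# Computability of the test
-/

open Primrec

namespace Pool.Agent.R922.BN

lemma prim_pow : Primrec₂ (fun a b : ℕ => a ^ b) := Primrec₂.unpaired'.1 Nat.Primrec.pow

lemma prim_Aval (b : ℕ) : Primrec (Aval b) := by
  unfold Aval
  exact Primrec.list_foldl (f := fun σ : List ℕ => σ) (g := fun _ => 0)
    (h := fun _ q => q.1 * b + q.2) Primrec.id (Primrec.const 0)
    (Primrec.nat_add.comp (Primrec.nat_mul.comp (Primrec.fst.comp Primrec.snd) (Primrec.const b))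
      (Primrec.snd.comp Primrec.snd))

lemma prim_hit (b s r R u : ℕ) : PrimrecRel (fun (n : ℕ) (σ : List ℕ) => hit b s r R u n σ) := by
  have hv : Primrec (fun q : ℕ × List ℕ => s ^ (q.1 + R) * Aval b q.2 / b ^ q.2.length) :=
    Primrec.nat_div.comp (Primrec.nat_mul.comp
      (prim_pow.comp (Primrec.const s) (Primrec.nat_add.comp Primrec.fst (Primrec.const R)))
      ((prim_Aval b).comp Primrec.snd))
      (prim_pow.comp (Primrec.const b) (Primrec.list_length.comp Primrec.snd))
  have h1 : PrimrecPred (fun q : ℕ × List ℕ =>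
      (s ^ (q.1 + R) * Aval b q.2 / b ^ q.2.length) / s ^ (R - r) % s ^ r = u) :=
    Primrec.eq.comp (Primrec.nat_mod.comp (Primrec.nat_div.comp hv (Primrec.const _))
      (Primrec.const _)) (Primrec.const u)
  have h2 : PrimrecPred (fun q : ℕ × List ℕ =>
      (s ^ (q.1 + R) * Aval b q.2 / b ^ q.2.length + 1) / s ^ (R - r) % s ^ r = u) :=
    Primrec.eq.comp (Primrec.nat_mod.comp (Primrec.nat_div.comp (Primrec.succ.comp hv)
      (Primrec.const _)) (Primrec.const _)) (Primrec.const u)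
  exact h1.or h2

lemma prim_cnt (b s r R u : ℕ) : Primrec (fun q : ℕ × List ℕ => cnt b s r R u q.1 q.2) := by
  unfold cnt
  exact Primrec.list_length.comp ((PrimrecRel.listFilter (prim_hit b s r R u)).comp
    (Primrec.list_range.comp Primrec.fst) Primrec.snd)

lemma prim_bad (b s r R u E J c : ℕ) :
    PrimrecPred (fun q : ℕ × List ℕ => bad b s r R u E J c q.1 q.2) := by
  have hN : Primrec (fun q : ℕ × List ℕ => q.1 ^ J) :=
    prim_pow.comp Primrec.fst (Primrec.const J)
  have h1 : PrimrecPred (fun q : ℕ × List ℕ => q.2.length = c * q.1 ^ J) :=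
    Primrec.eq.comp (Primrec.list_length.comp Primrec.snd)
      (Primrec.nat_mul.comp (Primrec.const c) hN)
  have h2 : PrimrecPred (fun q : ℕ × List ℕ =>
      q.1 ^ J * (E + s ^ r) < cnt b s r R u (q.1 ^ J) q.2 * (s ^ r * E)) :=
    Primrec.nat_lt.comp (Primrec.nat_mul.comp hN (Primrec.const _))
      (Primrec.nat_mul.comp ((prim_cnt b s r R u).comp (Primrec.pair hN Primrec.snd))
        (Primrec.const _))
  exact h1.and h2

/-- The test. -/
def WW (b s r R u E J c K0 : ℕ) : Set (List (List ℕ) × ℕ × List ℕ) :=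
  {q | ∃ i ∈ List.range (q.2.2.length + 1), K0 * 2 ^ q.2.1 ≤ i ∧ bad b s r R u E J c i q.2.2}

lemma re_WW (b s r R u E J c K0 : ℕ) : REPred (fun q => q ∈ WW b s r R u E J c K0) := by
  have h1 : PrimrecPred (fun q : ℕ × (List (List ℕ) × ℕ × List ℕ) => K0 * 2 ^ q.2.2.1 ≤ q.1) :=
    Primrec.nat_le.comp (Primrec.nat_mul.comp (Primrec.const K0)
      (prim_pow.comp (Primrec.const 2) (Primrec.fst.comp (Primrec.snd.comp Primrec.snd))))
      Primrec.fst
  have h2 : PrimrecPred (fun q : ℕ × (List (List ℕ) × ℕ × List ℕ) =>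
      bad b s r R u E J c q.1 q.2.2.2) :=
    (prim_bad b s r R u E J c).comp
      (Primrec.pair Primrec.fst (Primrec.snd.comp (Primrec.snd.comp Primrec.snd)))
  have h3 : PrimrecRel (fun (i : ℕ) (q : List (List ℕ) × ℕ × List ℕ) =>
      K0 * 2 ^ q.2.1 ≤ i ∧ bad b s r R u E J c i q.2.2) := h1.and h2
  have h4 := h3.exists_mem_list
  have h5 : PrimrecPred (fun q : List (List ℕ) × ℕ × List ℕ =>
      ∃ i ∈ List.range (q.2.2.length + 1), K0 * 2 ^ q.2.1 ≤ i ∧ bad b s r R u E J c i q.2.2) :=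
    h4.comp (Primrec.list_range.comp (Primrec.succ.comp
      (Primrec.list_length.comp (Primrec.snd.comp Primrec.snd)))) Primrec.id
  exact h5.computablePred.to_re

end Pool.Agent.R922.BN
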