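import Pool.Agent.R922.BN.Meas

/-!
# From the digit sequence to normality of the real
-/

open MeasureTheory Filter Finset
open scoped Topology

namespace Pool.Agent.R922.BN

variable {b : ℕ}

lemma dig_val (b : ℕ) [NeZero b] (x : ℝ) (i : ℕ) :
    ((dig b x i : Fin b) : ℕ) = ⌊(b : ℝ) ^ (i + 1) * x⌋₊ % b := by
  simp [dig, Fin.ofNat]

lemma floor_pow_div (b : ℕ) (hb : 1 ≤ b) (x : ℝ) {m n : ℕ} (h : m ≤ n) :
    ⌊(b : ℝ) ^ m * x⌋₊ = ⌊(b : ℝ) ^ n * x⌋₊ / b ^ (n - m) := by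
  have hb0 : (b:ℝ) ≠ 0 := by positivity
  rw [← Nat.floor_div_natCast]
  congr 1
  push_cast
  have : (b : ℝ) ^ n = (b : ℝ) ^ m * (b : ℝ) ^ (n - m) := by rw [← pow_add]; congr 1; omega
  rw [this]; field_simp

lemma Aval_pfx (b : ℕ) [NeZero b] (hb : 2 ≤ b) {x : ℝ} (hx1 : x < 1) (L : ℕ) :
    Aval b (pfx (dig b x) L) = ⌊(b : ℝ) ^ L * x⌋₊ := by
  induction L with
  | zero =>
    have : ⌊(b : ℝ) ^ 0 * x⌋₊ = 0 := by
      rw [pow_zero, one_mul]; exact Nat.floor_eq_zero.2 hx1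
    rw [this]; simp [Aval, pfx]
  | succ L ih =>
    have h1 : Aval b (pfx (dig b x) (L + 1)) = Aval b (pfx (dig b x) L) * b + (dig b x L : ℕ) := by
      unfold Aval pfx
      rw [List.range_succ, List.map_append, List.foldl_append]; rfl
    rw [h1, ih, dig_val, floor_pow_div b (by omega) x (Nat.le_succ L)]
    have : L + 1 - L = 1 := by omega
    rw [this, pow_one, mul_comm]
    exact Nat.div_add_mod _ _

/-- the real count -/
noncomputable def cR (s r u : ℕ) (x : ℝ) (N : ℕ) : ℕ :=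
  ((range N).filter (fun n => ⌊(s : ℝ) ^ (n + r) * x⌋₊ % s ^ r = u)).card

lemma cR_mono (s r u : ℕ) (x : ℝ) {M N : ℕ} (h : M ≤ N) : cR s r u x M ≤ cR s r u x N := by
  unfold cR
  apply card_le_card
  intro n hn
  rw [mem_filter, mem_range] at hn ⊢
  exact ⟨by omega, hn.2⟩

lemma cR_le_cnt (b : ℕ) [NeZero b] (hb : 2 ≤ b) {s r R u : ℕ} (hs : 2 ≤ s) (hrR : r ≤ R) {x : ℝ}
    (hx0 : 0 ≤ x) (hx1 : x < 1) {N L : ℕ} (hL : s ^ (N + R) ≤ b ^ L) :
    cR s r u x N ≤ cnt b s r R u N (pfx (dig b x) L) := by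
  rw [cnt_eq_card]
  unfold cR
  apply card_le_card
  intro n hn
  rw [mem_filter, mem_range] at hn ⊢
  refine ⟨hn.1, ?_⟩
  unfold hit
  rw [length_pfx, Aval_pfx b hb hx1]
  set A := ⌊(b : ℝ) ^ L * x⌋₊ with hA
  have hb0 : (0:ℝ) < (b:ℝ) ^ L := by positivity
  have hA1 : (A : ℝ) ≤ (b : ℝ) ^ L * x := Nat.floor_le (by positivity)
  have hA2 : (b : ℝ) ^ L * x < A + 1 := Nat.lt_floor_add_one _
  set F := ⌊(s : ℝ) ^ (n + R) * x⌋₊ with hF
  set v := s ^ (n + R) * A / b ^ L with hv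
  have hsn : (s : ℝ) ^ (n + R) ≤ (b : ℝ) ^ L := by
    have h1 : s ^ (n + R) ≤ s ^ (N + R) := Nat.pow_le_pow_right (by omega) (by omega)
    exact_mod_cast h1.trans hL
  have hvF : v ≤ F := by
    rw [hF]
    apply Nat.le_floor
    have h1 : (v : ℝ) ≤ (s : ℝ) ^ (n + R) * A / (b:ℝ) ^ L := by
      have := @Nat.cast_div_le ℝ _ _ _ (s ^ (n + R) * A) (b ^ L)
      push_cast at this
      exact this
    refine h1.trans ?_
    rw [div_le_iff₀ hb0]
    calc (s : ℝ) ^ (n + R) * A ≤ (s : ℝ) ^ (n + R) * ((b : ℝ) ^ L * x) :=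
          mul_le_mul_of_nonneg_left hA1 (by positivity)
      _ = _ := by ring
  have hFv : F ≤ v + 1 := by
    have h1 : (s : ℝ) ^ (n + R) * x < v + 2 := by
      have h2 : (s : ℝ) ^ (n + R) * A / (b:ℝ) ^ L < v + 1 := by
        have := Nat.lt_div_mul_add (a := s ^ (n + R) * A) (b := b ^ L) (by positivity)
        rw [div_lt_iff₀ hb0]
        have h3 : s ^ (n + R) * A < v * b ^ L + b ^ L := this
        have h4 : ((s ^ (n + R) * A : ℕ) : ℝ) < ((v * b ^ L + b ^ L : ℕ) : ℝ) := by exact_mod_cast h3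
        push_cast at h4
        linarith
      have h5 : (s : ℝ) ^ (n + R) * x ≤ (s : ℝ) ^ (n + R) * A / (b:ℝ) ^ L + 1 := by
        have h6 : x ≤ (A + 1) / (b:ℝ) ^ L := by
          rw [le_div_iff₀ hb0]; linarith
        calc (s : ℝ) ^ (n + R) * x ≤ (s : ℝ) ^ (n + R) * ((A + 1) / (b:ℝ) ^ L) :=
              mul_le_mul_of_nonneg_left h6 (by positivity)
          _ = (s : ℝ) ^ (n + R) * A / (b:ℝ) ^ L + (s : ℝ) ^ (n + R) / (b:ℝ) ^ L := by ring
          _ ≤ _ := by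
            have : (s : ℝ) ^ (n + R) / (b:ℝ) ^ L ≤ 1 := (div_le_one hb0).2 hsn
            linarith
      linarith
    have h7 : F < v + 2 := by
      rw [hF, Nat.floor_lt (by positivity)]
      push_cast; exact h1
    omega
  have hr : ⌊(s : ℝ) ^ (n + r) * x⌋₊ = F / s ^ (R - r) := by
    rw [floor_pow_div s (by omega) x (show n + r ≤ n + R by omega)]
    congr 2; omega
  have h8 := hn.2
  rw [hr] at h8
  have : F = v ∨ F = v + 1 := by omega
  rcases this with h | h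
  · left; rw [← h]; exact h8
  · right; rw [← h]; exact h8

/-- upper bound for the frequencies -/
theorem freq_upper (b : ℕ) [NeZero b] (hb : 2 ≤ b) (p : Densities b) {x : ℝ} (hx0 : 0 ≤ x)
    (hx1 : x < 1) (hX : BernoulliRandom b p x) {s : ℕ} (hs : 2 ≤ s) (hind : MultIndep b s)
    (r u : ℕ) {ε : ℝ} (hε : 0 < ε) :
    ∀ᶠ N : ℕ in atTop, (cR s r u x N : ℝ) ≤ (1 / (s:ℝ) ^ r + ε) * N := by
  obtain ⟨E0, hE0⟩ := exists_nat_gt (2 / ε)
  set E := E0 + 1 with hE
  have hE1 : 1 ≤ E := by omega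
  have hEε : (1:ℝ) / E ≤ ε / 2 := by
    have : (2:ℝ) / ε < E := by rw [hE]; push_cast; linarith
    rw [div_le_div_iff₀ (by positivity) (by norm_num)]
    rw [div_lt_iff₀ hε] at this
    linarith
  set R := r + 4 * E with hR
  have hR1 : 4 * E ≤ s ^ R := by
    calc 4 * E ≤ R := by omega
      _ ≤ s ^ R := (Nat.lt_pow_self (by omega)).le
  obtain ⟨J, c, i1, hJ, hc, H⟩ := random_not_bad hb p hX hs hind (r := r) (R := R) (u := u)
    (by omega) hE1 hR1
  have hcnt : ∀ i : ℕ, i1 ≤ i → 1 ≤ i → (cR s r u x (i ^ J) : ℝ) ≤ (1 / (s:ℝ) ^ r + 1 / E) * (i:ℝ) ^ J := by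
    intro i hi hi1
    refine le_trans ?_ (H i hi)
    have hN1 : 1 ≤ i ^ J := Nat.one_le_pow _ _ hi1
    have hL : s ^ (i ^ J + R) ≤ b ^ (c * i ^ J) := by
      calc s ^ (i ^ J + R) ≤ s ^ ((1 + R) * i ^ J) :=
            Nat.pow_le_pow_right (by omega) (by nlinarith)
        _ = (s ^ (1 + R)) ^ (i ^ J) := by rw [pow_mul]
        _ ≤ (b ^ c) ^ (i ^ J) := by
            apply Nat.pow_le_pow_left
            exact hc.trans (Nat.lt_pow_self (by omega)).le
        _ = _ := by rw [pow_mul]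
    exact_mod_cast cR_le_cnt b hb hs (by omega) hx0 hx1 hL
  -- interpolation
  set a : ℝ := 1 / (s:ℝ) ^ r + 1 / E with ha
  have ha0 : 0 < a := by positivity
  have hlim : Tendsto (fun i : ℕ => (1 + 1 / (i:ℝ)) ^ J * a) atTop (𝓝 ((1 + 0) ^ J * a)) := by
    apply Tendsto.mul_const
    apply Tendsto.pow
    exact tendsto_const_nhds.add tendsto_one_div_atTop_nhds_zero_nat
  have hev : ∀ᶠ i : ℕ in atTop, (1 + 1 / (i:ℝ)) ^ J * a < 1 / (s:ℝ) ^ r + ε := by
    apply hlim.eventually_lt_const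
    rw [add_zero, one_pow, one_mul, ha]; linarith
  obtain ⟨i2, hi2⟩ := eventually_atTop.1 hev
  set i3 := max (max i1 i2) 1 with hi3
  filter_upwards [eventually_ge_atTop (i3 ^ J)] with N hN
  -- find i with i^J ≤ N < (i+1)^J
  set i := Nat.findGreatest (fun i => i ^ J ≤ N) N with hi
  have hi3N : i3 ≤ N := le_trans (Nat.le_self_pow (by omega) i3) hN
  have h1 : i ^ J ≤ N := Nat.findGreatest_spec (P := fun i => i ^ J ≤ N) hi3N hN
  have h2 : i3 ≤ i := Nat.le_findGreatest (P := fun i => i ^ J ≤ N) hi3N hN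
  have h3 : N < (i + 1) ^ J := by
    by_contra hcon
    push Not at hcon
    have h4 : i + 1 ≤ N := le_trans (Nat.le_self_pow (by omega) _) hcon
    have := Nat.le_findGreatest (P := fun i => i ^ J ≤ N) h4 hcon
    omega
  have hi1' : 1 ≤ i := le_trans (le_max_right _ _) h2
  have hi0 : (0:ℝ) < i := by exact_mod_cast hi1'
  have h5 : (cR s r u x N : ℝ) ≤ a * ((i + 1 : ℕ) : ℝ) ^ J := by
    have h6 : cR s r u x N ≤ cR s r u x ((i + 1) ^ J) := cR_mono s r u x h3.le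
    refine le_trans (by exact_mod_cast h6) (hcnt (i + 1) ?_ (by omega))
    have := (le_max_left _ _).trans ((le_max_left _ _).trans h2)
    omega
  have h7 : ((i + 1 : ℕ) : ℝ) ^ J = (1 + 1 / (i:ℝ)) ^ J * (i:ℝ) ^ J := by
    rw [← mul_pow]; congr 1; push_cast; field_simp
  have h8 := hi2 i ((le_max_right _ _).trans ((le_max_left _ _).trans h2))
  calc (cR s r u x N : ℝ) ≤ a * ((i + 1 : ℕ) : ℝ) ^ J := h5
    _ = ((1 + 1 / (i:ℝ)) ^ J * a) * (i:ℝ) ^ J := by rw [h7]; ring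
    _ ≤ (1 / (s:ℝ) ^ r + ε) * (i:ℝ) ^ J := mul_le_mul_of_nonneg_right h8.le (by positivity)
    _ ≤ (1 / (s:ℝ) ^ r + ε) * N := by
        apply mul_le_mul_of_nonneg_left _ (by positivity)
        exact_mod_cast h1

lemma sum_cR (s r : ℕ) (hs : 1 ≤ s) (x : ℝ) (N : ℕ) : ∑ u ∈ range (s ^ r), cR s r u x N = N := by
  unfold cR
  have := card_eq_sum_card_fiberwise (s := range N) (t := range (s ^ r))
    (f := fun n => ⌊(s : ℝ) ^ (n + r) * x⌋₊ % s ^ r)
    (fun n _ => by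
      have : ⌊(s : ℝ) ^ (n + r) * x⌋₊ % s ^ r < s ^ r := Nat.mod_lt _ (by positivity)
      simpa using this)
  rw [card_range] at this
  exact this.symm

/-- convergence of the frequencies -/
theorem freq_tendsto (b : ℕ) [NeZero b] (hb : 2 ≤ b) (p : Densities b) {x : ℝ} (hx0 : 0 ≤ x)
    (hx1 : x < 1) (hX : BernoulliRandom b p x) {s : ℕ} (hs : 2 ≤ s) (hind : MultIndep b s)
    (r u : ℕ) (hu : u < s ^ r) :
    Tendsto (fun N : ℕ => (cR s r u x N : ℝ) / N) atTop (𝓝 (1 / (s:ℝ) ^ r)) := by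
  have hsr : (0:ℝ) < (s:ℝ) ^ r := by positivity
  rw [Metric.tendsto_atTop']
  intro ε hε
  set ε' := ε / (2 * (s:ℝ) ^ r) with hε'
  have hε'0 : 0 < ε' := by positivity
  have hsr1 : (1:ℝ) ≤ (s:ℝ) ^ r := one_le_pow₀ (by exact_mod_cast (by omega : 1 ≤ s))
  have hall : ∀ᶠ N : ℕ in atTop, ∀ w ∈ range (s ^ r), (cR s r w x N : ℝ) ≤ (1 / (s:ℝ) ^ r + ε') * N := by
    rw [Filter.eventually_all_finset]
    intro w _
    exact freq_upper b hb p hx0 hx1 hX hs hind r w hε'0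
  obtain ⟨N0, hN0⟩ := eventually_atTop.1 hall
  refine ⟨max N0 1, ?_⟩
  intro N hN
  have hN1 : 1 ≤ N := le_trans (le_max_right _ _) hN.le
  have hNp : (0:ℝ) < N := by exact_mod_cast hN1
  have h1 := hN0 N (le_trans (le_max_left _ _) hN.le)
  have hup := h1 u (mem_range.2 hu)
  have hsum : (∑ w ∈ range (s ^ r), (cR s r w x N : ℝ)) = N := by
    have := sum_cR s r (by omega) x N
    exact_mod_cast this
  have hlow : (1 / (s:ℝ) ^ r - ε' * (s:ℝ) ^ r) * N ≤ cR s r u x N := by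
    rw [← add_sum_erase _ _ (mem_range.2 hu)] at hsum
    have h2 : ∑ w ∈ (range (s ^ r)).erase u, (cR s r w x N : ℝ)
        ≤ ∑ w ∈ (range (s ^ r)).erase u, (1 / (s:ℝ) ^ r + ε') * N :=
      sum_le_sum fun w hw => h1 w (mem_of_mem_erase hw)
    rw [sum_const, card_erase_of_mem (mem_range.2 hu), card_range, nsmul_eq_mul,
      Nat.cast_sub (Nat.one_le_pow _ _ (by omega))] at h2
    push_cast at h2
    have h3 : ((s:ℝ) ^ r - 1) * ((1 / (s:ℝ) ^ r + ε') * N)
        = (1 - 1 / (s:ℝ) ^ r + ε' * (s:ℝ) ^ r - ε') * N := by field_simp; ring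
    rw [h3] at h2
    have h4 : 0 ≤ ε' * N := by positivity
    nlinarith
  rw [Real.dist_eq, abs_lt]
  have e1 : ε' * (s:ℝ) ^ r = ε / 2 := by rw [hε']; field_simp
  rw [e1] at hlow
  have e2 : ε' ≤ ε / 2 := by
    rw [hε']
    exact div_le_div_of_nonneg_left hε.le (by norm_num) (by linarith)
  constructor
  · have : 1 / (s:ℝ) ^ r - ε / 2 ≤ (cR s r u x N : ℝ) / N := by
      rw [le_div_iff₀ hNp]; exact hlow
    linarith
  · have : (cR s r u x N : ℝ) / N ≤ 1 / (s:ℝ) ^ r + ε' := by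
      rw [div_le_iff₀ hNp]; exact hup
    linarith

/-! ### Blocks of digits and residues -/

lemma mod_pow_eq {s : ℕ} {F G : ℕ} (k : ℕ) (h : ∀ j < k, F / s ^ j % s = G / s ^ j % s) :
    F % s ^ k = G % s ^ k := by
  induction k with
  | zero => simp [Nat.mod_one]
  | succ k ih =>
    rw [Nat.mod_pow_succ, Nat.mod_pow_succ, ih (fun j hj => h j (by omega)), h k (by omega)]

lemma div_mod_of_mod_pow {s : ℕ} {F : ℕ} {r j : ℕ} (hj : j < r) :
    (F % s ^ r) / s ^ j % s = F / s ^ j % s := by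
  have h1 : s ^ r = s ^ j * s ^ (r - j) := by rw [← pow_add]; congr 1; omega
  rw [h1, Nat.mod_mul_right_div_self]
  have h2 : s ∣ s ^ (r - j) := dvd_pow_self s (by omega)
  exact Nat.mod_mod_of_dvd _ h2

/-- the digits of a residue -/
def dg (s r : ℕ) [NeZero s] (u : Fin (s ^ r)) : Fin r → Fin s :=
  fun j => Fin.ofNat s ((u : ℕ) / s ^ (r - 1 - j))

lemma dg_inj (s r : ℕ) [NeZero s] : Function.Injective (dg s r) := by
  intro u v h
  have h1 : ∀ j < r, (u : ℕ) / s ^ j % s = (v : ℕ) / s ^ j % s := by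
    intro j hj
    have h2 := congrFun h ⟨r - 1 - j, by omega⟩
    have h3 := congrArg (fun z : Fin s => (z : ℕ)) h2
    simp only [dg, Fin.ofNat] at h3
    have h4 : r - 1 - (r - 1 - j) = j := by omega
    rw [h4] at h3
    exact h3
  have h2 := mod_pow_eq r h1
  rw [Nat.mod_eq_of_lt u.2, Nat.mod_eq_of_lt v.2] at h2
  exact Fin.ext h2

lemma exists_code (s r : ℕ) [NeZero s] (v : Fin r → Fin s) :
    ∃ u < s ^ r, ∀ j : Fin r, (v j : ℕ) = u / s ^ (r - 1 - (j:ℕ)) % s := by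
  have hbij : Function.Bijective (dg s r) := by
    rw [Fintype.bijective_iff_injective_and_card]
    exact ⟨dg_inj s r, by simp⟩
  obtain ⟨u, hu⟩ := hbij.2 v
  refine ⟨u, u.2, ?_⟩
  intro j
  rw [← hu]; simp [dg, Fin.ofNat]

lemma block_iff (s : ℕ) [NeZero s] (r : ℕ) (x : ℝ) (i : ℕ) (v : Fin r → Fin s) {u : ℕ}
    (hu : u < s ^ r) (hv : ∀ j : Fin r, (v j : ℕ) = u / s ^ (r - 1 - (j:ℕ)) % s) :
    (∀ j : Fin r, dig s x (i + j) = v j) ↔ ⌊(s : ℝ) ^ (i + r) * x⌋₊ % s ^ r = u := by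
  have hs : 1 ≤ s := Nat.one_le_iff_ne_zero.2 (NeZero.ne s)
  set F := ⌊(s : ℝ) ^ (i + r) * x⌋₊ with hF
  have hdig : ∀ j : Fin r, ((dig s x (i + j) : Fin s) : ℕ) = F / s ^ (r - 1 - (j:ℕ)) % s := by
    intro j
    rw [dig_val, floor_pow_div s hs x (show i + (j:ℕ) + 1 ≤ i + r by omega)]
    congr 3; omega
  constructor
  · intro h
    have h1 : ∀ j < r, F / s ^ j % s = u / s ^ j % s := by
      intro j hj
      have h2 := congrArg (fun z : Fin s => (z : ℕ)) (h ⟨r - 1 - j, by omega⟩)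
      simp only at h2
      have h3 := hdig ⟨r - 1 - j, by omega⟩
      have h4 := hv ⟨r - 1 - j, by omega⟩
      simp only at h3 h4
      have h5 : r - 1 - (r - 1 - j) = j := by omega
      rw [h5] at h3 h4
      rw [← h3, ← h4]; exact h2
    have := mod_pow_eq r h1
    rwa [Nat.mod_eq_of_lt hu] at this
  · intro h j
    apply Fin.ext
    rw [hdig, hv j, ← h]
    exact (div_mod_of_mod_pow (by omega)).symm

/-- uniform densities -/
noncomputable def unif (s : ℕ) (hs : 1 ≤ s) : Densities s where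
  val := fun _ => 1 / s
  pos := fun _ => by positivity
  sum_one := by
    rw [sum_const, card_univ, Fintype.card_fin, nsmul_eq_mul]
    field_simp

theorem normal_of_random (b : ℕ) [NeZero b] (hb : 2 ≤ b) (p : Densities b) {x : ℝ} (hx0 : 0 ≤ x)
    (hx1 : x < 1) (hX : BernoulliRandom b p x) (s : ℕ) [NeZero s] (hs : 2 ≤ s)
    (hind : MultIndep b s) : BiasedNormal s (unif s (by omega)) x := by
  intro r _ v
  obtain ⟨u, hu, hv⟩ := exists_code s r v
  have h1 := freq_tendsto b hb p hx0 hx1 hX hs hind r u hu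
  have h2 : ∏ j, (unif s (by omega : 1 ≤ s)).val (v j) = 1 / (s:ℝ) ^ r := by
    simp [unif]
  rw [h2]
  refine h1.congr ?_
  intro N
  unfold cR
  congr 3
  ext n
  simp only [mem_filter]
  rw [block_iff s r x n v hu hv]

end Pool.Agent.R922.BN
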