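import Pool.Agent.R922.BN.Block

/-!
# The double sum
-/

open Finset

namespace Pool.Agent.R922.BN

/-- `b` and `s` are multiplicatively independent. -/
def MultIndep (b s : ℕ) : Prop := ∀ m n : ℕ, 1 ≤ m → 1 ≤ n → b ^ m ≠ s ^ n

lemma not_pow_dvd_of_natAbs {q : ℕ} (hq : 2 ≤ q) {h : ℤ} (hh : h ≠ 0) :
    ¬ (q : ℤ) ^ (h.natAbs + 1) ∣ h := by
  intro hd
  have h1 : q ^ (h.natAbs + 1) ∣ h.natAbs := by
    have := Int.natAbs_dvd_natAbs.2 hd
    rwa [Int.natAbs_pow, Int.natAbs_natCast] at this
  have h2 := Nat.le_of_dvd (Int.natAbs_pos.2 hh) h1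
  have h3 : h.natAbs + 1 < q ^ (h.natAbs + 1) := Nat.lt_pow_self (by omega)
  omega

/-- arithmetic of the second case -/
lemma case_two {b s : ℕ} (hb : 2 ≤ b) (hs : 2 ≤ s) (hind : MultIndep b s)
    (hall : ∀ q : ℕ, q.Prime → q ∣ b → q ∣ s) :
    ∃ q d e s1 : ℕ, q.Prime ∧ q ∣ b ∧ q ∣ s ∧ 1 ≤ d ∧ 1 ≤ e ∧ 2 ≤ s1 ∧ ¬ q ∣ s1 ∧
      s ^ d = b ^ e * s1 ∧ ¬ q ^ (d * e + 1) ∣ s ^ d := by
  have hb0 : b ≠ 0 := by omega
  have hs0 : s ≠ 0 := by omega
  have hne : b.primeFactors.Nonempty := Nat.nonempty_primeFactors.2 (by omega)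
  obtain ⟨q, hq, hmin⟩ := b.primeFactors.exists_min_image
    (fun r => (s.factorization r : ℚ) / b.factorization r) hne
  have hqp : q.Prime := Nat.prime_of_mem_primeFactors hq
  have hqb : q ∣ b := Nat.dvd_of_mem_primeFactors hq
  have hqs : q ∣ s := hall q hqp hqb
  set d := b.factorization q with hd
  set e := s.factorization q with he
  have hd1 : 1 ≤ d := (hqp.dvd_iff_one_le_factorization hb0).1 hqb
  have he1 : 1 ≤ e := (hqp.dvd_iff_one_le_factorization hs0).1 hqs
  have hle : ∀ r : ℕ, r.Prime → e * b.factorization r ≤ d * s.factorization r := by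
    intro r hr
    by_cases hrb : r ∣ b
    · have h1 := hmin r (Nat.mem_primeFactors.2 ⟨hr, hrb, hb0⟩)
      have h2 : 1 ≤ b.factorization r := (hr.dvd_iff_one_le_factorization hb0).1 hrb
      have h3 : (0:ℚ) < b.factorization r := by exact_mod_cast h2
      have h4 : (0:ℚ) < d := by exact_mod_cast hd1
      rw [div_le_div_iff₀ h4 h3] at h1
      have : (e:ℚ) * b.factorization r ≤ d * s.factorization r := by
        rw [mul_comm (d:ℚ)]; exact h1
      exact_mod_cast this
    · rw [Nat.factorization_eq_zero_of_not_dvd hrb]; simp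
  have hdvd : b ^ e ∣ s ^ d := by
    rw [← Nat.factorization_prime_le_iff_dvd (by positivity) (by positivity)]
    intro r hr
    simp only [Nat.factorization_pow, Finsupp.smul_apply, smul_eq_mul]
    exact hle r hr
  obtain ⟨s1, hs1⟩ := hdvd
  have hs10 : s1 ≠ 0 := by
    rintro rfl
    rw [mul_zero] at hs1
    have : 0 < s ^ d := by positivity
    omega
  have hfac : (s ^ d).factorization q = d * e := by
    simp only [Nat.factorization_pow, Finsupp.smul_apply, smul_eq_mul, he]
  have hq1 : ¬ q ∣ s1 := by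
    intro hq1
    have h1 : 1 ≤ s1.factorization q := (hqp.dvd_iff_one_le_factorization hs10).1 hq1
    have h2 : (b ^ e * s1).factorization q = e * d + s1.factorization q := by
      rw [Nat.factorization_mul (by positivity) hs10]
      simp only [Nat.factorization_pow, Finsupp.add_apply, Finsupp.smul_apply, smul_eq_mul, hd]
    rw [← hs1, hfac, mul_comm d e] at h2
    omega
  refine ⟨q, d, e, s1, hqp, hqb, hqs, hd1, he1, ?_, hq1, hs1, ?_⟩
  · rcases Nat.lt_or_ge s1 2 with h | h
    · exfalso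
      have : s1 = 1 := by omega
      rw [this, mul_one] at hs1
      exact hind e d he1 hd1 hs1.symm
    · exact h
  · intro h
    rw [hqp.pow_dvd_iff_le_factorization (by positivity), hfac] at h
    omega

section
variable {b : ℕ} {p : Fin b → ℝ}

lemma PP_zero (hs : ∑ d, p d = 1) (K : ℕ) : PP p K 0 = 1 := by
  unfold PP
  apply prod_eq_one
  intro j _
  have := ph_int (p := p) hs 0
  simp only [Int.cast_zero, zero_div] at this ⊢
  rw [this]; simp

/-- The double sum bound. -/
theorem double_sum (hb : 2 ≤ b) (hp : ∀ d, 0 < p d) (hsum : ∑ d, p d = 1) {s : ℕ} (hs : 2 ≤ s)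
    (hind : MultIndep b s) {h : ℤ} (hh : h ≠ 0) :
    ∃ (C κ : ℝ) (K0 e0 : ℕ), 0 < C ∧ 0 < κ ∧ κ < 1 ∧
      ∀ N K L : ℕ, K0 ≤ K → b ^ K ≤ N → K + e0 * N ≤ L →
        ∑ m ∈ range N, ∑ n ∈ range N, PP p L (h * ((s : ℤ) ^ n - (s : ℤ) ^ m))
          ≤ N + C * κ ^ K * N ^ 2 := by
  classical
  obtain ⟨Q, hQ1, hQ⟩ := exists_Q hb hp hsum
  by_cases hcase : ∃ q : ℕ, q.Prime ∧ q ∣ b ∧ ¬ q ∣ s
  · obtain ⟨q, hq, hqb, hqs⟩ := hcase
    have D : Dat b p q Q := ⟨hb, hp, hsum, hq, hqb, hQ1, hQ⟩
    obtain ⟨A, hA⟩ := order_bound hq hs hqs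
    obtain ⟨k0, k1, _⟩ := kap_props hq.two_le hQ1
    have hq2 := hq.two_le
    refine ⟨2 * (q:ℝ) ^ (h.natAbs + A), kap q Q, h.natAbs + A, 0, by positivity, k0, k1, ?_⟩
    intro N K L hK hKN hL
    have hkey : ∀ m ∈ range N, ∑ n ∈ range N, PP p L (h * ((s : ℤ) ^ n - (s : ℤ) ^ m))
        ≤ N * (2 * ((q : ℝ) ^ (h.natAbs + A) * kap q Q ^ K)) := by
      intro m _
      have := sum_block D (s := s) (V := h.natAbs) (A := A) hqs hA (by omega) (l := h)
        (c := -(h * (s : ℤ) ^ m)) (not_pow_dvd_of_natAbs hq2 hh) hKN hK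
      refine le_trans (sum_le_sum ?_) this
      intro n _
      have e1 : h * ((s : ℤ) ^ n - (s : ℤ) ^ m) = h * (s : ℤ) ^ n + -(h * (s : ℤ) ^ m) := by ring
      rw [e1]
      exact PP_anti hp hsum (by omega) _
    refine (sum_le_sum hkey).trans ?_
    rw [sum_const, card_range, nsmul_eq_mul]
    have : (0:ℝ) ≤ N := Nat.cast_nonneg _
    nlinarith
  · push Not at hcase
    obtain ⟨q, d, e, s1, hq, hqb, hqs, hd1, he1, hs1, hqs1, hsd, hval⟩ :=
      case_two hb hs hind hcase
    have D : Dat b p q Q := ⟨hb, hp, hsum, hq, hqb, hQ1, hQ⟩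
    obtain ⟨A, hA⟩ := order_bound hq hs1 hqs1
    obtain ⟨k0, k1, _⟩ := kap_props hq.two_le hQ1
    have hq2 := hq.two_le
    have hqp : Prime (q : ℤ) := Nat.prime_iff_prime_int.1 hq
    set V := h.natAbs + d * e with hV
    refine ⟨8 * d * (q:ℝ) ^ (V + A), kap q Q, V + A, e, by positivity, k0, k1, ?_⟩
    intro N K L hK hKN hL
    have hN1 : 1 ≤ N := le_trans (Nat.one_le_pow _ _ (by omega)) hKN
    set F : ℕ → ℕ → ℝ := fun j m => PP p L (h * ((s : ℤ) ^ m * ((s : ℤ) ^ j - 1))) with hF
    have hF0 : ∀ j m, 0 ≤ F j m := fun j m => PP_nonneg _ _ _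
    set W := (q : ℝ) ^ (V + A) * kap q Q ^ K with hW
    have hW0 : 0 ≤ W := by positivity
    -- the bound for fixed j
    have hj : ∀ j, 1 ≤ j → ∑ m ∈ range N, F j m ≤ 4 * d * N * W := by
      intro j hj1
      have hle : ∑ m ∈ range N, F j m ≤ ∑ m ∈ range (d * (N + 1)), F j m := by
        apply sum_le_sum_of_subset_of_nonneg
        · intro x hx; rw [mem_range] at hx ⊢; nlinarith
        · intro _ _ _; exact hF0 _ _
      refine hle.trans ?_
      rw [sum_range_mul', sum_comm]
      have hi : ∀ i ∈ range d, ∑ a ∈ range (N + 1), F j (d * a + i)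
          ≤ ((N + 1 : ℕ) : ℝ) * (2 * W) := by
        intro i hi
        rw [mem_range] at hi
        have hl : ¬ (q : ℤ) ^ (V + 1) ∣ h * ((s : ℤ) ^ i * ((s : ℤ) ^ j - 1)) := by
          intro hd
          have h1 := pow_dvd_of_not hqp (not_pow_dvd_of_natAbs hq2 hh) hd (by omega)
          have h2 : V + 1 - h.natAbs = d * e + 1 := by omega
          rw [h2] at h1
          have hcop : IsCoprime ((q : ℤ) ^ (d * e + 1)) ((s : ℤ) ^ j - 1) := by
            apply IsCoprime.pow_left
            rw [Prime.coprime_iff_not_dvd hqp]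
            intro h3
            have h4 : (q:ℤ) ∣ (s:ℤ) ^ j :=
              dvd_pow (by exact_mod_cast hqs) (by omega)
            have h5 : (q:ℤ) ∣ 1 := by
              have := dvd_sub h4 h3
              rwa [sub_sub_cancel] at this
            exact hqp.not_dvd_one h5
          have h6 : (q : ℤ) ^ (d * e + 1) ∣ (s : ℤ) ^ i := hcop.dvd_of_dvd_mul_right h1
          have h7 : (q : ℤ) ^ (d * e + 1) ∣ (s : ℤ) ^ d := h6.trans (pow_dvd_pow _ hi.le)
          exact hval (by exact_mod_cast h7)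
        have := sum_block D (s := s1) (V := V) (A := A) hqs1 hA (by omega)
          (l := h * ((s : ℤ) ^ i * ((s : ℤ) ^ j - 1))) (c := 0) hl (K := K) (N := N + 1)
          (by omega) hK
        refine le_trans (sum_le_sum ?_) this
        intro a ha
        rw [mem_range] at ha
        have e1 : h * ((s : ℤ) ^ (d * a + i) * ((s : ℤ) ^ j - 1))
            = (b : ℤ) ^ (e * a) * (h * ((s : ℤ) ^ i * ((s : ℤ) ^ j - 1)) * (s1 : ℤ) ^ a + 0) := by
          have : (s : ℤ) ^ (d * a) = (b : ℤ) ^ (e * a) * (s1 : ℤ) ^ a := by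
            rw [pow_mul, pow_mul, ← mul_pow]; congr 1
            exact_mod_cast hsd
          rw [pow_add, this]; ring
        simp only [hF]
        rw [e1]
        apply PP_le_shift hb hp hsum
        have : e * a ≤ e * N := Nat.mul_le_mul_left _ (by omega)
        omega
      refine (sum_le_sum hi).trans ?_
      rw [sum_const, card_range, nsmul_eq_mul]
      have h1 : ((N + 1 : ℕ) : ℝ) ≤ 2 * N := by
        have : N + 1 ≤ 2 * N := by omega
        exact_mod_cast this
      calc (d:ℝ) * (((N + 1 : ℕ) : ℝ) * (2 * W)) ≤ d * ((2 * N) * (2 * W)) := by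
            apply mul_le_mul_of_nonneg_left _ (Nat.cast_nonneg _)
            exact mul_le_mul_of_nonneg_right h1 (by positivity)
        _ = _ := by ring
    -- splitting
    have hsplit : ∀ m ∈ range N, ∀ n ∈ range N,
        PP p L (h * ((s : ℤ) ^ n - (s : ℤ) ^ m))
          ≤ (if n = m then (1:ℝ) else 0) + ∑ j ∈ Ico 1 N, (if n = m + j then F j m else 0)
            + ∑ j ∈ Ico 1 N, (if m = n + j then F j n else 0) := by
      intro m hm n hn
      rw [mem_range] at hm hn
      have p1 : 0 ≤ ∑ j ∈ Ico 1 N, (if n = m + j then F j m else 0) :=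
        sum_nonneg fun j _ => by split_ifs; exact hF0 _ _; exact le_refl _
      have p2 : 0 ≤ ∑ j ∈ Ico 1 N, (if m = n + j then F j n else 0) :=
        sum_nonneg fun j _ => by split_ifs; exact hF0 _ _; exact le_refl _
      rcases lt_trichotomy n m with hlt | heq | hgt
      · have h1 : F (m - n) n ≤ ∑ j ∈ Ico 1 N, (if m = n + j then F j n else 0) := by
          have := single_le_sum (f := fun j => if m = n + j then F j n else 0)
            (s := Ico 1 N) (fun j _ => by split_ifs; exact hF0 _ _; exact le_refl _)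
            (a := m - n) (by rw [mem_Ico]; omega)
          rwa [if_pos (by omega)] at this
        have h2 : PP p L (h * ((s : ℤ) ^ n - (s : ℤ) ^ m)) = F (m - n) n := by
          simp only [hF]
          rw [← PP_neg]; congr 1
          have : (s : ℤ) ^ m = (s : ℤ) ^ n * (s : ℤ) ^ (m - n) := by
            rw [← pow_add]; congr 1; omega
          rw [this]; ring
        rw [h2, if_neg (by omega)]; linarith
      · subst heq
        rw [if_pos rfl]
        have := PP_le_one hp hsum L (h * ((s : ℤ) ^ n - (s : ℤ) ^ n))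
        linarith
      · have h1 : F (n - m) m ≤ ∑ j ∈ Ico 1 N, (if n = m + j then F j m else 0) := by
          have := single_le_sum (f := fun j => if n = m + j then F j m else 0)
            (s := Ico 1 N) (fun j _ => by split_ifs; exact hF0 _ _; exact le_refl _)
            (a := n - m) (by rw [mem_Ico]; omega)
          rwa [if_pos (by omega)] at this
        have h2 : PP p L (h * ((s : ℤ) ^ n - (s : ℤ) ^ m)) = F (n - m) m := by
          simp only [hF]
          congr 1
          have : (s : ℤ) ^ n = (s : ℤ) ^ m * (s : ℤ) ^ (n - m) := by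
            rw [← pow_add]; congr 1; omega
          rw [this]; ring
        rw [h2, if_neg (by omega)]; linarith
    have hone : ∀ (x : ℕ) (y : ℝ), 0 ≤ y → ∑ n ∈ range N, (if n = x then y else 0) ≤ y := by
      intro x y hy
      rw [sum_ite_eq']
      split_ifs
      · exact le_refl _
      · exact hy
    have t1 : ∑ m ∈ range N, ∑ n ∈ range N, (if n = m then (1:ℝ) else 0) ≤ N := by
      calc _ ≤ ∑ m ∈ range N, (1:ℝ) := sum_le_sum fun m _ => hone m 1 zero_le_one
        _ = N := by simp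
    have t2 : ∑ m ∈ range N, ∑ n ∈ range N, ∑ j ∈ Ico 1 N, (if n = m + j then F j m else 0)
        ≤ N * (4 * d * N * W) := by
      calc _ = ∑ m ∈ range N, ∑ j ∈ Ico 1 N, ∑ n ∈ range N, (if n = m + j then F j m else 0) :=
            sum_congr rfl fun m _ => sum_comm
        _ ≤ ∑ m ∈ range N, ∑ j ∈ Ico 1 N, F j m :=
            sum_le_sum fun m _ => sum_le_sum fun j _ => hone _ _ (hF0 _ _)
        _ = ∑ j ∈ Ico 1 N, ∑ m ∈ range N, F j m := sum_comm
        _ ≤ ∑ j ∈ Ico 1 N, 4 * d * N * W := sum_le_sum fun j hj' =>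
            hj j (mem_Ico.1 hj').1
        _ ≤ N * (4 * d * N * W) := by
            rw [sum_const, Nat.card_Ico, nsmul_eq_mul]
            apply mul_le_mul_of_nonneg_right _ (by positivity)
            exact_mod_cast Nat.sub_le _ _
    have t3 : ∑ m ∈ range N, ∑ n ∈ range N, ∑ j ∈ Ico 1 N, (if m = n + j then F j n else 0)
        ≤ N * (4 * d * N * W) := by
      rw [sum_comm]
      exact t2
    calc ∑ m ∈ range N, ∑ n ∈ range N, PP p L (h * ((s : ℤ) ^ n - (s : ℤ) ^ m))
        ≤ ∑ m ∈ range N, ∑ n ∈ range N, ((if n = m then (1:ℝ) else 0)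
            + ∑ j ∈ Ico 1 N, (if n = m + j then F j m else 0)
            + ∑ j ∈ Ico 1 N, (if m = n + j then F j n else 0)) :=
          sum_le_sum fun m hm => sum_le_sum fun n hn => hsplit m hm n hn
      _ = (∑ m ∈ range N, ∑ n ∈ range N, (if n = m then (1:ℝ) else 0))
          + (∑ m ∈ range N, ∑ n ∈ range N, ∑ j ∈ Ico 1 N, (if n = m + j then F j m else 0))
          + (∑ m ∈ range N, ∑ n ∈ range N, ∑ j ∈ Ico 1 N, (if m = n + j then F j n else 0)) := by
          simp only [sum_add_distrib]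
      _ ≤ N + N * (4 * d * N * W) + N * (4 * d * N * W) := by
          exact add_le_add (add_le_add t1 t2) t3
      _ = N + 8 * d * (q:ℝ) ^ (V + A) * kap q Q ^ K * N ^ 2 := by rw [hW]; ring

end

end Pool.Agent.R922.BN
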