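import Pool.Agent.R922.BN.Comp

/-!
# Measure of the test
-/

open MeasureTheory Finset
open scoped ENNReal

namespace Pool.Agent.R922.BN

variable {b : ℕ}

/-- cylinder -/
def cyl {L : ℕ} (σ : Fin L → Fin b) : Set (ℕ → Fin b) := {X | ∀ j : Fin L, X j = σ j}

lemma bern_cyl (p : Densities b) {L : ℕ} (σ : Fin L → Fin b) :
    bern p (cyl σ) = ENNReal.ofReal (wt p.val σ) := by
  classical
  have h1 : cyl σ = Set.pi (↑(range L) : Set ℕ)
      (fun j => if h : j < L then {σ ⟨j, h⟩} else Set.univ) := by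
    ext X
    simp only [cyl, Set.mem_setOf_eq, Set.mem_pi, Finset.coe_range, Set.mem_Iio]
    constructor
    · intro h j hj
      rw [dif_pos hj]
      exact h ⟨j, hj⟩
    · intro h j
      have := h j j.2
      rw [dif_pos j.2] at this
      exact this
  rw [h1, bern, Measure.infinitePi_pi]
  · rw [Finset.prod_range]
    unfold wt
    rw [ENNReal.ofReal_prod_of_nonneg (fun j _ => (p.pos _).le)]
    apply prod_congr rfl
    intro j _
    rw [dif_pos j.2, PMF.toMeasure_apply_singleton _ _ (measurableSet_singleton _)]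
    rfl
  · intro j _
    exact MeasurableSet.of_discrete

lemma ext_eq_pfx {L : ℕ} {σ : Fin L → Fin b} {X : ℕ → Fin b} (hX : X ∈ cyl σ) :
    pre (ext σ) L = pfx X L := by
  unfold pre pfx
  apply List.map_congr_left
  intro j hj
  have hj' : j < L := by simpa using hj
  simp only [ext, hj', dif_pos]
  exact congrArg _ (hX ⟨j, hj'⟩).symm

lemma length_pfx (X : ℕ → Fin b) (L : ℕ) : (pfx X L).length = L := by simp [pfx]

/-- the bad event -/
def Vb (b s r R u E J c i : ℕ) : Set (ℕ → Fin b) :=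
  {X | bad b s r R u E J c i (pfx X (c * i ^ J))}

lemma bern_Vb (p : Densities b) (s r R u E J c i : ℕ) :
    bern p (Vb b s r R u E J c i) ≤ ENNReal.ofReal
      (∑ σ ∈ (univ : Finset (Fin (c * i ^ J) → Fin b)).filter
        (fun σ => bad b s r R u E J c i (pre (ext σ) (c * i ^ J))), wt p.val σ) := by
  classical
  have hsub : Vb b s r R u E J c i ⊆ ⋃ σ ∈ (univ : Finset (Fin (c * i ^ J) → Fin b)).filter
        (fun σ => bad b s r R u E J c i (pre (ext σ) (c * i ^ J))), cyl σ := by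
    intro X hX
    have hc : X ∈ cyl (fun j : Fin (c * i ^ J) => X j) := fun j => rfl
    rw [Set.mem_iUnion₂]
    refine ⟨fun j => X j, ?_, hc⟩
    rw [mem_filter]
    refine ⟨mem_univ _, ?_⟩
    rw [ext_eq_pfx hc]
    exact hX
  refine (measure_mono hsub).trans ((measure_biUnion_finset_le _ _).trans (le_of_eq ?_))
  rw [ENNReal.ofReal_sum_of_nonneg (fun σ _ => wt_nonneg p.pos σ)]
  apply sum_congr rfl
  intro σ _
  exact bern_cyl p σ

lemma tail_sum (M : ℕ) (hM : 1 ≤ M) (n : ℕ) :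
    ∑ i ∈ range n, 1 / ((M + i : ℕ) : ℝ) ^ 2 ≤ 2 / M - 2 / ((M + n : ℕ) : ℝ) := by
  induction n with
  | zero => simp
  | succ n ih =>
    rw [sum_range_succ]
    have h1 : (1:ℝ) ≤ ((M + n : ℕ) : ℝ) := by exact_mod_cast (by omega : 1 ≤ M + n)
    set x : ℝ := ((M + n : ℕ) : ℝ) with hx
    have h2 : ((M + (n + 1) : ℕ) : ℝ) = x + 1 := by rw [hx]; push_cast; ring
    rw [h2]
    have h3 : 1 / x ^ 2 ≤ 2 / x - 2 / (x + 1) := by
      rw [div_sub_div _ _ (by positivity) (by positivity), div_le_div_iff₀ (by positivity) (by positivity)]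
      nlinarith
    linarith

lemma opn_WW_le (p : Densities b) {s r R u E J c K0 : ℕ} {C : ℝ} {i0 : ℕ} (hC : 0 < C)
    (hc : 1 ≤ c) (hJ : 1 ≤ J)
    (hV : ∀ i : ℕ, i0 ≤ i → 1 ≤ i →
      ∑ σ ∈ (univ : Finset (Fin (c * i ^ J) → Fin b)).filter
        (fun σ => bad b s r R u E J c i (pre (ext σ) (c * i ^ J))), wt p.val σ ≤ C / (i : ℝ) ^ 2)
    (hK0 : i0 + 1 ≤ K0) (hK1 : 2 * C ≤ K0) (k : ℕ) :
    bern p (opn p (WW b s r R u E J c K0) k) ≤ (1 / 2) ^ k := by
  set M := K0 * 2 ^ k with hM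
  have hM1 : i0 + 1 ≤ M := le_trans hK0 (Nat.le_mul_of_pos_right _ (by positivity))
  have hM0 : (0:ℝ) < M := by exact_mod_cast (by omega : 0 < M)
  have hsub : opn p (WW b s r R u E J c K0) k ⊆ ⋃ i : ℕ, Vb b s r R u E J c (M + i) := by
    rintro X ⟨m, n, i, _, hi, hb⟩
    simp only at hi hb
    rw [Set.mem_iUnion]
    refine ⟨i - M, ?_⟩
    have hi' : M + (i - M) = i := by omega
    rw [hi']
    show bad b s r R u E J c i (pfx X (c * i ^ J))
    have hn : n = c * i ^ J := by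
      have := hb.1
      rwa [length_pfx] at this
    rw [← hn]; exact hb
  have h1 : ∀ i : ℕ, bern p (Vb b s r R u E J c (M + i))
      ≤ ENNReal.ofReal (C * (1 / ((M + i : ℕ) : ℝ) ^ 2)) := by
    intro i
    refine (bern_Vb p s r R u E J c (M + i)).trans (ENNReal.ofReal_le_ofReal ?_)
    refine (hV (M + i) (by omega) (by omega)).trans (le_of_eq (by ring))
  refine (measure_mono hsub).trans ((measure_iUnion_le _).trans ?_)
  refine (ENNReal.tsum_le_tsum h1).trans ?_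
  have h2 : ∑' i : ℕ, ENNReal.ofReal (C * (1 / ((M + i : ℕ) : ℝ) ^ 2)) ≤ ENNReal.ofReal (2 * C / M) := by
    apply ENNReal.tsum_le_of_sum_range_le
    intro n
    rw [← ENNReal.ofReal_sum_of_nonneg (fun i _ => by positivity), ← mul_sum]
    apply ENNReal.ofReal_le_ofReal
    have h3 := tail_sum M (by omega) n
    have h4 : 0 ≤ 2 / ((M + n : ℕ) : ℝ) := by positivity
    calc C * ∑ i ∈ range n, 1 / ((M + i : ℕ) : ℝ) ^ 2 ≤ C * (2 / M) :=
          mul_le_mul_of_nonneg_left (by linarith) hC.le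
      _ = 2 * C / M := by ring
  refine h2.trans ?_
  have h3 : 2 * C / M ≤ (1 / 2 : ℝ) ^ k := by
    rw [div_le_iff₀ hM0, hM]; push_cast
    have : (1 / 2 : ℝ) ^ k * (K0 * 2 ^ k) = K0 := by
      rw [one_div_pow]; field_simp
    rw [this]; exact hK1
  calc ENNReal.ofReal (2 * C / M) ≤ ENNReal.ofReal ((1 / 2 : ℝ) ^ k) := ENNReal.ofReal_le_ofReal h3
    _ = (1 / 2) ^ k := by
      rw [ENNReal.ofReal_pow (by norm_num), ENNReal.ofReal_div_of_pos (by norm_num)]
      simp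

/-- A random sequence has only finitely many bad levels. -/
theorem random_not_bad (hb : 2 ≤ b) (p : Densities b) {X : ℕ → Fin b} (hX : MLRandom p X)
    {s : ℕ} (hs : 2 ≤ s) (hind : MultIndep b s) {r R u E : ℕ} (hrR : r ≤ R) (hE : 1 ≤ E)
    (hR : 4 * E ≤ s ^ R) :
    ∃ (J c i1 : ℕ), 1 ≤ J ∧ s ^ (1 + R) ≤ c ∧ ∀ i : ℕ, i1 ≤ i →
      (cnt b s r R u (i ^ J) (pfx X (c * i ^ J)) : ℝ) ≤ (1 / (s:ℝ) ^ r + 1 / E) * (i:ℝ) ^ J := by
  obtain ⟨J, c, i0, C, hJ, hc, hcs, hC, hV⟩ := bad_words hb p.pos p.sum_one hs hind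
    (u := u) hrR hE hR
  obtain ⟨K1, hK1⟩ := exists_nat_ge (2 * C)
  set K0 := max (i0 + 1) K1 with hK0
  have htest : IsTest p (WW b s r R u E J c K0) := by
    refine ⟨re_WW b s r R u E J c K0, fun k => ?_⟩
    apply opn_WW_le p hC hc hJ hV (le_max_left _ _)
    exact hK1.trans (by exact_mod_cast le_max_right _ _)
  obtain ⟨k, hk⟩ := hX _ htest
  refine ⟨J, c, K0 * 2 ^ k + 1, hJ, hcs, ?_⟩
  intro i hi
  by_contra hcon
  push Not at hcon
  apply hk
  refine ⟨0, c * i ^ J, i, ?_, by simp only; omega, ?_, ?_⟩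
  · simp only [length_pfx, List.mem_range]
    have h1 : i ≤ i ^ J := Nat.le_self_pow (by omega) i
    have h2 : i ^ J ≤ c * i ^ J := Nat.le_mul_of_pos_left _ (by omega)
    omega
  · simp only [length_pfx]
  · simp only
    have hs0 : (0:ℝ) < (s:ℝ) ^ r := by positivity
    have hE0 : (0:ℝ) < E := by exact_mod_cast hE
    have h1 : (1 / (s:ℝ) ^ r + 1 / E) * (i:ℝ) ^ J * ((s:ℝ) ^ r * E)
        < (cnt b s r R u (i ^ J) (pfx X (c * i ^ J)) : ℝ) * ((s:ℝ) ^ r * E) :=
      mul_lt_mul_of_pos_right hcon (by positivity)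
    have h2 : (1 / (s:ℝ) ^ r + 1 / E) * (i:ℝ) ^ J * ((s:ℝ) ^ r * E) = (i:ℝ) ^ J * (E + (s:ℝ) ^ r) := by
      field_simp
    rw [h2] at h1
    exact_mod_cast h1

end Pool.Agent.R922.BN
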