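import Mathlib

/-!
# Trigonometric products and the transfer bound
-/

open Finset

namespace Pool.Agent.R922.BN

/-- `e(x) = exp (2 π i x)` -/
noncomputable def e (x : ℝ) : ℂ := Complex.exp (((2 * Real.pi * x : ℝ) : ℂ) * Complex.I)

lemma norm_e (x : ℝ) : ‖e x‖ = 1 := Complex.norm_exp_ofReal_mul_I _

lemma e_zero : e 0 = 1 := by simp [e]

lemma e_add (x y : ℝ) : e (x + y) = e x * e y := by
  unfold e; rw [← Complex.exp_add]; congr 1; push_cast; ring

lemma e_int (n : ℤ) : e n = 1 := by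
  unfold e
  have := Complex.exp_int_mul_two_pi_mul_I n
  rw [← this]; congr 1; push_cast; ring

lemma e_neg (x : ℝ) : e (-x) = (starRingEnd ℂ) (e x) := by
  unfold e
  rw [← Complex.exp_conj, map_mul, Complex.conj_ofReal, Complex.conj_I]
  congr 1; push_cast; ring

lemma e_add_int (x : ℝ) (n : ℤ) : e (x + n) = e x := by rw [e_add, e_int, mul_one]

lemma e_sum {ι : Type*} (s : Finset ι) (f : ι → ℝ) : e (∑ i ∈ s, f i) = ∏ i ∈ s, e (f i) := by
  classical
  induction s using Finset.induction_on with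
  | empty => simp [e_zero]
  | insert a s ha ih => rw [sum_insert ha, prod_insert ha, e_add, ih]

variable {b : ℕ}

/-- the trigonometric polynomial of the digit distribution -/
noncomputable def ph (p : Fin b → ℝ) (x : ℝ) : ℂ := ∑ d : Fin b, (p d : ℂ) * e ((d : ℕ) * x)

lemma norm_ph_le {p : Fin b → ℝ} (hp : ∀ d, 0 < p d) (hs : ∑ d, p d = 1) (x : ℝ) :
    ‖ph p x‖ ≤ 1 := by
  unfold ph
  refine (norm_sum_le _ _).trans (le_of_eq ?_)
  rw [← hs]
  apply sum_congr rfl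
  intro d _
  rw [norm_mul, norm_e, mul_one, Complex.norm_real, Real.norm_of_nonneg (hp d).le]

lemma ph_add_int (p : Fin b → ℝ) (x : ℝ) (n : ℤ) : ph p (x + n) = ph p x := by
  unfold ph
  apply sum_congr rfl
  intro d _
  congr 1
  have : ((d : ℕ) : ℝ) * (x + n) = (d : ℕ) * x + (((d : ℕ) * n : ℤ) : ℝ) := by push_cast; ring
  rw [this, e_add_int]

lemma ph_int {p : Fin b → ℝ} (hs : ∑ d, p d = 1) (n : ℤ) : ph p n = 1 := by
  have h := ph_add_int p 0 n
  rw [zero_add] at h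
  rw [h]; unfold ph
  simp only [mul_zero, e_zero, mul_one]
  rw [← Complex.ofReal_sum, hs]; simp

lemma norm_ph_neg (p : Fin b → ℝ) (x : ℝ) : ‖ph p (-x)‖ = ‖ph p x‖ := by
  have : ph p (-x) = (starRingEnd ℂ) (ph p x) := by
    unfold ph
    rw [map_sum]
    apply sum_congr rfl
    intro d _
    rw [map_mul, Complex.conj_ofReal, ← e_neg]; congr 2; ring
  rw [this, RCLike.norm_conj]

/-- the product -/
noncomputable def PP (p : Fin b → ℝ) (K : ℕ) (t : ℤ) : ℝ :=
  ∏ j ∈ range K, ‖ph p ((t : ℝ) / (b : ℝ) ^ (j + 1))‖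

lemma PP_nonneg (p : Fin b → ℝ) (K : ℕ) (t : ℤ) : 0 ≤ PP p K t :=
  prod_nonneg fun _ _ => norm_nonneg _

lemma PP_le_one {p : Fin b → ℝ} (hp : ∀ d, 0 < p d) (hs : ∑ d, p d = 1) (K : ℕ) (t : ℤ) :
    PP p K t ≤ 1 :=
  prod_le_one (fun _ _ => norm_nonneg _) fun _ _ => norm_ph_le hp hs _

lemma PP_neg (p : Fin b → ℝ) (K : ℕ) (t : ℤ) : PP p K (-t) = PP p K t := by
  unfold PP
  apply prod_congr rfl
  intro j _
  rw [← norm_ph_neg]; congr 2; push_cast; ring

lemma PP_anti {p : Fin b → ℝ} (hp : ∀ d, 0 < p d) (hs : ∑ d, p d = 1) {K L : ℕ} (h : K ≤ L)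
    (t : ℤ) : PP p L t ≤ PP p K t := by
  induction L, h using Nat.le_induction with
  | base => exact le_refl _
  | succ L _ ih =>
    refine le_trans ?_ ih
    unfold PP
    rw [prod_range_succ]
    exact mul_le_of_le_one_right (prod_nonneg fun _ _ => norm_nonneg _) (norm_ph_le hp hs _)

lemma PP_mul_pow {p : Fin b → ℝ} (hb : 2 ≤ b) (hs : ∑ d, p d = 1) (c K : ℕ) (t : ℤ) :
    PP p (c + K) ((b : ℤ) ^ c * t) = PP p K t := by
  have hb0 : (b : ℝ) ≠ 0 := by positivity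
  unfold PP
  rw [prod_range_add]
  have h1 : ∏ j ∈ range c, ‖ph p ((((b : ℤ) ^ c * t : ℤ) : ℝ) / (b : ℝ) ^ (j + 1))‖ = 1 := by
    apply prod_eq_one
    intro j hj
    have hj' : j + 1 ≤ c := mem_range.1 hj
    have : (((b : ℤ) ^ c * t : ℤ) : ℝ) / (b : ℝ) ^ (j + 1)
        = (((b : ℤ) ^ (c - (j + 1)) * t : ℤ) : ℝ) := by
      push_cast
      rw [div_eq_iff (by positivity)]
      have : (b : ℝ) ^ c = (b : ℝ) ^ (c - (j + 1)) * (b : ℝ) ^ (j + 1) := by
        rw [← pow_add]; congr 1; omega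
      rw [this]; ring
    rw [this, ph_int hs]; simp
  rw [h1, one_mul]
  apply prod_congr rfl
  intro j _
  congr 2
  push_cast
  rw [show c + j + 1 = c + (j + 1) by ring, pow_add]
  rw [mul_div_mul_left _ _ (by positivity)]

lemma PP_le_shift {p : Fin b → ℝ} (hb : 2 ≤ b) (hp : ∀ d, 0 < p d) (hs : ∑ d, p d = 1)
    {c K L : ℕ} (h : K + c ≤ L) (t : ℤ) :
    PP p L ((b : ℤ) ^ c * t) ≤ PP p K t := by
  rw [← PP_mul_pow hb hs c K t]
  exact PP_anti hp hs (by omega) _

lemma PP_periodic (p : Fin b → ℝ) (hb : 2 ≤ b) (K : ℕ) (t a : ℤ) :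
    PP p K (t + (b : ℤ) ^ K * a) = PP p K t := by
  have hb0 : (b : ℝ) ≠ 0 := by positivity
  unfold PP
  apply prod_congr rfl
  intro j hj
  have hj' : j + 1 ≤ K := mem_range.1 hj
  have : ((t + (b : ℤ) ^ K * a : ℤ) : ℝ) / (b : ℝ) ^ (j + 1)
      = (t : ℝ) / (b : ℝ) ^ (j + 1) + (((b : ℤ) ^ (K - (j + 1)) * a : ℤ) : ℝ) := by
    push_cast
    rw [add_div]
    congr 1
    rw [div_eq_iff (by positivity)]
    have : (b : ℝ) ^ K = (b : ℝ) ^ (K - (j + 1)) * (b : ℝ) ^ (j + 1) := by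
      rw [← pow_add]; congr 1; omega
    rw [this]; ring
  rw [this, ph_add_int]

/-! ### The bound away from the integers -/

lemma sin_sq_ge (x : ℝ) : 4 * (x - round x) ^ 2 ≤ Real.sin (Real.pi * x) ^ 2 := by
  have h1 : Real.sin (Real.pi * x) ^ 2 = Real.sin (Real.pi * |x - round x|) ^ 2 := by
    have e1 : Real.sin (Real.pi * (x - round x)) ^ 2 = Real.sin (Real.pi * x) ^ 2 := by
      have : Real.pi * (x - round x) = Real.pi * x - round x * Real.pi := by ring
      rw [this, Real.sin_sub_int_mul_pi, mul_pow]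
      rcases Int.even_or_odd (round x) with h | h
      · rw [h.neg_one_zpow]; ring
      · rw [h.neg_one_zpow]; ring
    rw [← e1]
    rcases abs_cases (x - round x) with ⟨h, _⟩ | ⟨h, _⟩
    · rw [h]
    · rw [h, show Real.pi * -(x - round x) = -(Real.pi * (x - round x)) by ring, Real.sin_neg]
      ring
  have h2 : |x - round x| ≤ 1 / 2 := abs_sub_round x
  have h3 := Real.mul_le_sin (x := Real.pi * |x - round x|) (by positivity)
    (by nlinarith [Real.pi_pos])
  have h4 : 2 / Real.pi * (Real.pi * |x - round x|) = 2 * |x - round x| := by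
    field_simp
  rw [h4] at h3
  rw [h1]
  have h5 : 0 ≤ 2 * |x - round x| := by positivity
  calc 4 * (x - round x) ^ 2 = (2 * |x - round x|) ^ 2 := by rw [mul_pow, sq_abs]; ring
    _ ≤ _ := pow_le_pow_left₀ h5 h3 2

lemma norm_two (α β x : ℝ) (hα : 0 < α) (hβ : 0 < β) :
    ‖(α : ℂ) + β * e x‖ ^ 2 ≤ (α + β) ^ 2 - 16 * α * β * (x - round x) ^ 2 := by
  have h1 : ‖(α : ℂ) + β * e x‖ ^ 2 = (α + β) ^ 2 - 4 * α * β * Real.sin (Real.pi * x) ^ 2 := by
    rw [← Complex.normSq_eq_norm_sq, Complex.normSq_apply]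
    have hre : (e x).re = Real.cos (2 * Real.pi * x) := by
      unfold e; rw [Complex.exp_ofReal_mul_I_re]
    have him : (e x).im = Real.sin (2 * Real.pi * x) := by
      unfold e; rw [Complex.exp_ofReal_mul_I_im]
    simp only [Complex.add_re, Complex.add_im, Complex.mul_re, Complex.mul_im,
      Complex.ofReal_re, Complex.ofReal_im, hre, him]
    have h3 : 2 * Real.pi * x = 2 * (Real.pi * x) := by ring
    rw [h3, Real.cos_two_mul, Real.sin_two_mul]
    have h4 := Real.sin_sq_add_cos_sq (Real.pi * x)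
    have h5 : Real.cos (Real.pi * x) ^ 2 = 1 - Real.sin (Real.pi * x) ^ 2 := by linarith
    have h6 : (2 * Real.sin (Real.pi * x) * Real.cos (Real.pi * x)) ^ 2
        = 4 * Real.sin (Real.pi * x) ^ 2 * Real.cos (Real.pi * x) ^ 2 := by ring
    ring_nf
    ring_nf at h6
    rw [show Real.cos (Real.pi * x) ^ 4 = (Real.cos (Real.pi * x) ^ 2) ^ 2 by ring, h5]
    ring
  have h2 := sin_sq_ge x
  rw [h1]
  have : 0 < α * β := by positivity
  nlinarith

/-- there is `ρ < 1` bounding `‖ph p x‖` away from the integers -/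
lemma exists_rho (hb : 2 ≤ b) {p : Fin b → ℝ} (hp : ∀ d, 0 < p d) (hs : ∑ d, p d = 1) :
    ∃ ρ : ℝ, 0 ≤ ρ ∧ ρ < 1 ∧ ∀ x : ℝ, 1 / (2 * b) ≤ |x - round x| → ‖ph p x‖ ≤ ρ := by
  set d0 : Fin b := ⟨0, by omega⟩
  set d1 : Fin b := ⟨1, by omega⟩
  have hne : d0 ≠ d1 := by simp [d0, d1]
  set α := p d0
  set β := p d1
  have hα : 0 < α := hp d0
  have hβ : 0 < β := hp d1
  have hb0 : (0:ℝ) < b := by positivity
  set D := (α + β) ^ 2 - 4 * α * β / b ^ 2 with hD
  have hrest : α + β + ∑ d ∈ (univ.erase d0).erase d1, p d = 1 := by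
    rw [← hs, ← add_sum_erase univ p (mem_univ d0), ← add_sum_erase (univ.erase d0) p
      (mem_erase.2 ⟨hne.symm, mem_univ d1⟩)]
    ring
  have hrest0 : 0 ≤ ∑ d ∈ (univ.erase d0).erase d1, p d := sum_nonneg fun d _ => (hp d).le
  have hDlt : D < (α + β) ^ 2 := by
    rw [hD]; have : 0 < 4 * α * β / b ^ 2 := by positivity
    linarith
  have hsq : Real.sqrt D < α + β := by
    rw [Real.sqrt_lt' (by positivity)]; exact hDlt
  refine ⟨1 - (α + β) + Real.sqrt D, ?_, by linarith, ?_⟩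
  · have := Real.sqrt_nonneg D; linarith
  · intro x hx
    have e1 : ph p x = ((α : ℂ) + β * e x) + ∑ d ∈ (univ.erase d0).erase d1,
        (p d : ℂ) * e ((d : ℕ) * x) := by
      unfold ph
      rw [← add_sum_erase univ _ (mem_univ d0), ← add_sum_erase (univ.erase d0) _
        (mem_erase.2 ⟨hne.symm, mem_univ d1⟩)]
      simp only [d0, d1, Nat.cast_zero, zero_mul, e_zero, mul_one, Nat.cast_one, one_mul]
      ring
    have e2 : ‖∑ d ∈ (univ.erase d0).erase d1, (p d : ℂ) * e ((d : ℕ) * x)‖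
        ≤ ∑ d ∈ (univ.erase d0).erase d1, p d := by
      refine (norm_sum_le _ _).trans (le_of_eq ?_)
      apply sum_congr rfl
      intro d _
      rw [norm_mul, norm_e, mul_one, Complex.norm_real, Real.norm_of_nonneg (hp d).le]
    have e3 : ‖(α : ℂ) + β * e x‖ ≤ Real.sqrt D := by
      apply Real.le_sqrt_of_sq_le
      refine (norm_two α β x hα hβ).trans ?_
      have h1 : (1 / (2 * b) : ℝ) ^ 2 ≤ (x - round x) ^ 2 := by
        rw [← sq_abs (x - round x)]
        exact pow_le_pow_left₀ (by positivity) hx 2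
      have h2 : (1 / (2 * b) : ℝ) ^ 2 = 1 / (4 * b ^ 2) := by field_simp; norm_num
      rw [h2] at h1
      have h3 : 16 * α * β * (1 / (4 * (b:ℝ) ^ 2)) ≤ 16 * α * β * (x - round x) ^ 2 :=
        mul_le_mul_of_nonneg_left h1 (by positivity)
      have h4 : 16 * α * β * (1 / (4 * (b:ℝ) ^ 2)) = 4 * α * β / b ^ 2 := by
        field_simp; norm_num
      rw [hD]; linarith
    rw [e1]
    refine (norm_add_le _ _).trans ?_
    linarith

/-- two points of the form `(θ + a)/b` are not both close to an integer -/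
lemma far_of_ne (hb : 2 ≤ b) (θ : ℝ) {a a' : ℕ} (ha : a < b) (ha' : a' < b) (hne : a ≠ a')
    (hclose : |(θ + a) / b - round ((θ + a) / b)| < 1 / (2 * b)) :
    1 / (2 * b) ≤ |(θ + a') / b - round ((θ + a') / b)| := by
  by_contra hcon
  push Not at hcon
  have hb0 : (0:ℝ) < b := by positivity
  set m := round ((θ + a) / b)
  set m' := round ((θ + a') / b)
  have h1 : |((a:ℝ) - a') / b - (m - m' : ℤ)| < 1 / b := by
    have e1 : ((a:ℝ) - a') / b - (m - m' : ℤ)
        = ((θ + a) / b - m) - ((θ + a') / b - m') := by push_cast; ring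
    rw [e1]
    refine (abs_sub _ _).trans_lt ?_
    have : (1:ℝ) / b = 1 / (2 * b) + 1 / (2 * b) := by field_simp; norm_num
    rw [this]; linarith
  have h2 : |(((a:ℤ) - a' - b * (m - m') : ℤ) : ℝ)| < 1 := by
    have e1 : (((a:ℤ) - a' - b * (m - m') : ℤ) : ℝ) = b * (((a:ℝ) - a') / b - (m - m' : ℤ)) := by
      push_cast; field_simp
    rw [e1, abs_mul, abs_of_pos hb0]
    calc (b:ℝ) * |((a:ℝ) - a') / b - (m - m' : ℤ)| < b * (1 / b) :=
          mul_lt_mul_of_pos_left h1 hb0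
      _ = 1 := by field_simp
  have h3 : ((a:ℤ) - a' - b * (m - m') : ℤ) = 0 := by
    have : |((a:ℤ) - a' - b * (m - m') : ℤ)| < 1 := by exact_mod_cast h2
    exact Int.abs_lt_one_iff.1 this
  have h4 : (b:ℤ) ∣ (a:ℤ) - a' := ⟨m - m', by linarith⟩
  have h5 : (a:ℤ) - a' = 0 := by
    apply Int.eq_zero_of_abs_lt_dvd h4
    rw [abs_lt]; constructor <;> omega
  apply hne; omega

lemma exists_Q (hb : 2 ≤ b) {p : Fin b → ℝ} (hp : ∀ d, 0 < p d) (hs : ∑ d, p d = 1) :
    ∃ Q : ℕ, 1 ≤ Q ∧ ∀ θ : ℝ, ∑ a ∈ range b, ‖ph p ((θ + a) / b)‖ ^ Q ≤ 3 / 2 := by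
  obtain ⟨ρ, h0, h1, hρ⟩ := exists_rho hb hp hs
  obtain ⟨Q0, hQ0⟩ := exists_pow_lt_of_lt_one (show (0:ℝ) < 1 / (2 * b) by positivity) h1
  refine ⟨Q0 + 1, by omega, ?_⟩
  intro θ
  have hb0 : (0:ℝ) < b := by positivity
  have hQ : ρ ^ (Q0 + 1) ≤ 1 / (2 * b) := by
    refine le_trans ?_ hQ0.le
    exact pow_le_pow_of_le_one h0 h1.le (by omega)
  by_cases hex : ∃ a ∈ range b, |(θ + a) / b - round ((θ + a) / b)| < 1 / (2 * b)
  · obtain ⟨a0, ha0, hc⟩ := hex
    rw [← add_sum_erase _ _ ha0]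
    have e1 : ‖ph p ((θ + a0) / b)‖ ^ (Q0 + 1) ≤ 1 :=
      pow_le_one₀ (norm_nonneg _) (norm_ph_le hp hs _)
    have e2 : ∑ a ∈ (range b).erase a0, ‖ph p ((θ + a) / b)‖ ^ (Q0 + 1)
        ≤ ∑ a ∈ (range b).erase a0, 1 / (2 * (b:ℝ)) := by
      apply sum_le_sum
      intro a ha
      rw [mem_erase] at ha
      refine (pow_le_pow_left₀ (norm_nonneg _) (hρ _ ?_) _).trans hQ
      exact far_of_ne hb θ (mem_range.1 ha0) (mem_range.1 ha.2) ha.1.symm hc
    rw [sum_const, nsmul_eq_mul] at e2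
    have e3 : (((range b).erase a0).card : ℝ) * (1 / (2 * (b:ℝ))) ≤ 1 / 2 := by
      have : (((range b).erase a0).card : ℝ) ≤ b := by
        have := card_erase_le (s := range b) (a := a0)
        rw [card_range] at this; exact_mod_cast this
      calc _ ≤ (b:ℝ) * (1 / (2 * (b:ℝ))) := mul_le_mul_of_nonneg_right this (by positivity)
        _ = 1 / 2 := by field_simp
    linarith
  · push Not at hex
    have e2 : ∑ a ∈ range b, ‖ph p ((θ + a) / b)‖ ^ (Q0 + 1)
        ≤ ∑ a ∈ range b, 1 / (2 * (b:ℝ)) := by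
      apply sum_le_sum
      intro a ha
      exact (pow_le_pow_left₀ (norm_nonneg _) (hρ _ (hex a ha)) _).trans hQ
    rw [sum_const, nsmul_eq_mul, card_range] at e2
    have e3 : (b:ℝ) * (1 / (2 * (b:ℝ))) = 1 / 2 := by field_simp
    linarith

lemma sum_range_mul' (f : ℕ → ℝ) (n m : ℕ) :
    ∑ t ∈ range (n * m), f t = ∑ a ∈ range m, ∑ t ∈ range n, f (n * a + t) := by
  induction m with
  | zero => simp
  | succ m ih =>
    rw [Nat.mul_succ, sum_range_add, ih, sum_range_succ]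

/-- The transfer bound. -/
lemma sum_PP_pow (hb : 2 ≤ b) {p : Fin b → ℝ} {Q : ℕ}
    (hQ : ∀ θ : ℝ, ∑ a ∈ range b, ‖ph p ((θ + a) / b)‖ ^ Q ≤ 3 / 2) (K : ℕ) :
    ∑ t ∈ range (b ^ K), PP p K (t : ℤ) ^ Q ≤ (3 / 2) ^ K := by
  have hb0 : (0:ℝ) < b := by positivity
  induction K with
  | zero => simp [PP]
  | succ K ih =>
    rw [pow_succ, sum_range_mul', sum_comm]
    have key : ∀ t ∈ range (b ^ K), ∑ a ∈ range b, PP p (K + 1) ((b ^ K * a + t : ℕ) : ℤ) ^ Q
        ≤ PP p K (t : ℤ) ^ Q * (3 / 2) := by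
      intro t _
      have e1 : ∀ a : ℕ, PP p (K + 1) ((b ^ K * a + t : ℕ) : ℤ)
          = PP p K (t : ℤ) * ‖ph p (((t : ℝ) / b ^ K + a) / b)‖ := by
        intro a
        have h1 : PP p (K + 1) ((b ^ K * a + t : ℕ) : ℤ)
            = PP p K ((b ^ K * a + t : ℕ) : ℤ)
              * ‖ph p ((((b ^ K * a + t : ℕ) : ℤ) : ℝ) / (b : ℝ) ^ (K + 1))‖ := by
          unfold PP; rw [prod_range_succ]
        have h2 : PP p K ((b ^ K * a + t : ℕ) : ℤ) = PP p K (t : ℤ) := by
          have := PP_periodic p hb K (t : ℤ) (a : ℤ)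
          rw [← this]; congr 1; push_cast; ring
        rw [h1, h2]
        congr 3
        push_cast
        rw [pow_succ]
        field_simp
        ring
      calc ∑ a ∈ range b, PP p (K + 1) ((b ^ K * a + t : ℕ) : ℤ) ^ Q
          = PP p K (t : ℤ) ^ Q * ∑ a ∈ range b, ‖ph p (((t : ℝ) / b ^ K + a) / b)‖ ^ Q := by
            rw [mul_sum]
            apply sum_congr rfl
            intro a _
            rw [e1 a, mul_pow]
        _ ≤ _ := mul_le_mul_of_nonneg_left (hQ _) (pow_nonneg (PP_nonneg _ _ _) _)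
    refine (sum_le_sum key).trans ?_
    rw [← sum_mul, pow_succ]
    exact mul_le_mul_of_nonneg_right ih (by norm_num)

end Pool.Agent.R922.BN
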