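import Pool.Agent.R922.BN.Prod

/-!
# A finite form of Weyl's criterion
-/

open Finset MeasureTheory

namespace Pool.Agent.R922.BN

lemma fourier_eq_e (h : ℤ) (y : ℝ) : (fourier h (y : UnitAddCircle) : ℂ) = e (h * y) := by
  rw [fourier_coe_apply]; unfold e
  congr 1; push_cast; ring

lemma integral_fourier' {n : ℤ} (hn : n ≠ 0) :
    ∫ x : UnitAddCircle, (fourier n x : ℂ) = 0 := by
  have ha : ∃ a : UnitAddCircle, (fourier n a : ℂ) ≠ 1 := by
    refine ⟨((1 / (2 * n) : ℝ) : UnitAddCircle), ?_⟩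
    rw [fourier_coe_apply]
    have hn' : (n : ℂ) ≠ 0 := by exact_mod_cast hn
    have : 2 * (Real.pi : ℂ) * Complex.I * n * ((1 / (2 * n) : ℝ) : ℂ) / ((1 : ℝ) : ℂ)
        = Real.pi * Complex.I := by
      push_cast
      field_simp
    rw [this, Complex.exp_pi_mul_I]
    norm_num
  obtain ⟨a, ha⟩ := ha
  have h1 : ∫ x : UnitAddCircle, (fourier n (x + a) : ℂ) = ∫ x : UnitAddCircle, (fourier n x : ℂ) :=
    integral_add_right_eq_self (fun x => (fourier n x : ℂ)) a
  have h2 : ∀ x : UnitAddCircle, (fourier n (x + a) : ℂ) = fourier n x * fourier n a := by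
    intro x
    simp only [fourier_apply]
    rw [smul_add, AddCircle.toCircle_add]; simp
  simp_rw [h2] at h1
  rw [integral_mul_const] at h1
  have h3 : (∫ x : UnitAddCircle, (fourier n x : ℂ)) * ((fourier n a : ℂ) - 1) = 0 := by
    rw [mul_sub, h1]; ring
  rcases mul_eq_zero.1 h3 with h | h
  · exact h
  · exact absurd (sub_eq_zero.1 h) ha

/-- the majorant -/
noncomputable def maj (c : UnitAddCircle) (ρ η : ℝ) (z : UnitAddCircle) : ℝ :=
  max 0 (1 - max 0 (‖z - c‖ - ρ) / η)

lemma maj_cont (c : UnitAddCircle) (ρ η : ℝ) : Continuous (maj c ρ η) := by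
  unfold maj
  fun_prop

lemma maj_nonneg (c : UnitAddCircle) (ρ η : ℝ) (z : UnitAddCircle) : 0 ≤ maj c ρ η z :=
  le_max_left _ _

lemma maj_le_one {c : UnitAddCircle} {ρ η : ℝ} (hη : 0 < η) (z : UnitAddCircle) :
    maj c ρ η z ≤ 1 := by
  unfold maj
  apply max_le zero_le_one
  have : 0 ≤ max 0 (‖z - c‖ - ρ) / η := div_nonneg (le_max_left _ _) hη.le
  linarith

lemma maj_eq_one {c : UnitAddCircle} {ρ η : ℝ} {z : UnitAddCircle} (hz : ‖z - c‖ ≤ ρ) :
    maj c ρ η z = 1 := by
  unfold maj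
  rw [max_eq_left (by linarith : ‖z - c‖ - ρ ≤ 0)]
  simp

lemma maj_eq_zero {c : UnitAddCircle} {ρ η : ℝ} (hη : 0 < η) {z : UnitAddCircle}
    (hz : ρ + η ≤ ‖z - c‖) : maj c ρ η z = 0 := by
  unfold maj
  apply max_eq_left
  rw [sub_nonpos, one_le_div hη]
  exact le_trans (by linarith) (le_max_right _ _)

lemma integral_maj_le {c : UnitAddCircle} {ρ η : ℝ} (hρ : 0 ≤ ρ) (hη : 0 < η) :
    ∫ z, maj c ρ η z ≤ 2 * (ρ + η) := by
  have h1 : ∀ z, maj c ρ η z ≤ (Metric.closedBall c (ρ + η)).indicator (fun _ => (1:ℝ)) z := by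
    intro z
    by_cases hz : z ∈ Metric.closedBall c (ρ + η)
    · rw [Set.indicator_of_mem hz]; exact maj_le_one hη z
    · rw [Set.indicator_of_notMem hz, maj_eq_zero hη]
      rw [Metric.mem_closedBall, dist_eq_norm] at hz
      linarith
  calc ∫ z, maj c ρ η z ≤ ∫ z, (Metric.closedBall c (ρ + η)).indicator (fun _ => (1:ℝ)) z := by
        apply integral_mono
        · exact (maj_cont c ρ η).integrable_of_hasCompactSupport
            (HasCompactSupport.of_compactSpace _)
        · exact (integrable_const (1:ℝ)).indicator measurableSet_closedBall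
        · exact h1
    _ = (volume (Metric.closedBall c (ρ + η))).toReal := by
        rw [integral_indicator measurableSet_closedBall]
        simp [Measure.real]
    _ ≤ 2 * (ρ + η) := by
        rw [AddCircle.volume_closedBall]
        rw [ENNReal.toReal_ofReal (by positivity)]
        exact min_le_right _ _

/-- A finite form of Weyl's criterion (upper bounds). -/
theorem weyl_fin (c : UnitAddCircle) {ρ ε : ℝ} (hρ : 0 ≤ ρ) (hε : 0 < ε) :
    ∃ (S : Finset ℤ) (δ : ℝ), 0 < δ ∧ (∀ h ∈ S, h ≠ 0) ∧ ∀ (N : ℕ) (y : ℕ → ℝ),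
      (∀ h ∈ S, ‖∑ n ∈ range N, e (h * y n)‖ ≤ δ * N) →
      (((range N).filter (fun n => ‖((y n : ℝ) : UnitAddCircle) - c‖ ≤ ρ)).card : ℝ)
        ≤ (2 * ρ + ε) * N := by
  classical
  set η : ℝ := ε / 8 with hη
  have hη0 : 0 < η := by positivity
  let F : C(UnitAddCircle, ℂ) := ⟨fun z => ((maj c ρ η z : ℝ) : ℂ),
    Complex.continuous_ofReal.comp (maj_cont c ρ η)⟩
  have hd : F ∈ closure ((Submodule.span ℂ (Set.range (@fourier (1:ℝ)))) : Set C(UnitAddCircle, ℂ)) := by
    have := span_fourier_closure_eq_top (T := (1:ℝ))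
    have h2 : F ∈ (Submodule.span ℂ (Set.range (@fourier (1:ℝ)))).topologicalClosure := by
      rw [this]; trivial
    exact h2
  obtain ⟨g, hg, hFg⟩ := Metric.mem_closure_iff.1 hd (ε / 8) (by positivity)
  obtain ⟨a, ha⟩ := (Finsupp.mem_span_range_iff_exists_finsupp).1 hg
  have hgv : ∀ z, g z = ∑ h ∈ a.support, a h * (fourier h z : ℂ) := by
    intro z
    rw [← ha, Finsupp.sum]
    simp [ContinuousMap.sum_apply]
  have hFgz : ∀ z, ‖F z - g z‖ ≤ ε / 8 := by
    intro z
    rw [dist_eq_norm] at hFg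
    exact ((F - g).norm_coe_le_norm z).trans hFg.le
  -- the constant coefficient
  have hgint : ∫ z, g z = a 0 := by
    simp_rw [hgv]
    rw [integral_finsetSum]
    · by_cases h0 : (0:ℤ) ∈ a.support
      · rw [Finset.sum_eq_single_of_mem 0 h0]
        · rw [integral_const_mul]; simp [Measure.real]
        · intro h _ hne
          rw [integral_const_mul, integral_fourier' hne, mul_zero]
      · rw [Finsupp.notMem_support_iff.1 h0]
        apply Finset.sum_eq_zero
        intro h hh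
        have hne : h ≠ 0 := fun h' => h0 (h' ▸ hh)
        rw [integral_const_mul, integral_fourier' hne, mul_zero]
    · intro h _
      apply Integrable.const_mul
      exact (ContinuousMap.continuous _).integrable_of_hasCompactSupport
        (HasCompactSupport.of_compactSpace _)
  have hFint : ∫ z, F z = ((∫ z, maj c ρ η z : ℝ) : ℂ) := by
    show ∫ z, ((maj c ρ η z : ℝ) : ℂ) = _
    exact integral_ofReal
  have ha0 : ‖a 0‖ ≤ 2 * (ρ + η) + ε / 8 := by
    have h1 : ‖(∫ z, F z) - ∫ z, g z‖ ≤ ε / 8 := by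
      rw [← integral_sub]
      · refine (norm_integral_le_of_norm_le_const (C := ε / 8)
          (Filter.Eventually.of_forall fun z => hFgz z)).trans ?_
        simp [Measure.real]
      · exact F.continuous.integrable_of_hasCompactSupport (HasCompactSupport.of_compactSpace _)
      · exact g.continuous.integrable_of_hasCompactSupport (HasCompactSupport.of_compactSpace _)
    have h2 : ‖∫ z, F z‖ ≤ 2 * (ρ + η) := by
      rw [hFint, Complex.norm_real, Real.norm_of_nonneg (integral_nonneg (maj_nonneg c ρ η))]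
      exact integral_maj_le hρ hη0
    rw [← hgint]
    calc ‖∫ z, g z‖ = ‖(∫ z, F z) - ((∫ z, F z) - ∫ z, g z)‖ := by congr 1; ring
      _ ≤ ‖∫ z, F z‖ + ‖(∫ z, F z) - ∫ z, g z‖ := norm_sub_le _ _
      _ ≤ _ := add_le_add h2 h1
  set Sa := ∑ h ∈ a.support, ‖a h‖ with hSa
  have hSa0 : 0 ≤ Sa := sum_nonneg fun _ _ => norm_nonneg _
  refine ⟨a.support.erase 0, ε / (8 * (Sa + 1)), by positivity,
    fun h hh => (mem_erase.1 hh).1, ?_⟩
  intro N y hy
  -- count ≤ sum of the majorant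
  have s1 : (((range N).filter (fun n => ‖((y n : ℝ) : UnitAddCircle) - c‖ ≤ ρ)).card : ℝ)
      ≤ ∑ n ∈ range N, maj c ρ η (y n) := by
    rw [card_filter]; push_cast
    apply sum_le_sum
    intro n _
    split_ifs with h
    · rw [maj_eq_one h]
    · exact maj_nonneg _ _ _ _
  have s2 : (∑ n ∈ range N, maj c ρ η (y n) : ℝ) = ‖∑ n ∈ range N, F (y n)‖ := by
    have : ∑ n ∈ range N, F (y n) = ((∑ n ∈ range N, maj c ρ η (y n) : ℝ) : ℂ) := by
      push_cast; rfl
    rw [this, Complex.norm_real, Real.norm_of_nonneg (sum_nonneg fun _ _ => maj_nonneg _ _ _ _)]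
  have s3 : ‖∑ n ∈ range N, F (y n) - ∑ n ∈ range N, g (y n)‖ ≤ N * (ε / 8) := by
    rw [← sum_sub_distrib]
    refine (norm_sum_le _ _).trans ?_
    calc _ ≤ ∑ n ∈ range N, ε / 8 := sum_le_sum fun n _ => hFgz _
      _ = _ := by rw [sum_const, card_range, nsmul_eq_mul]
  have s4 : ‖∑ n ∈ range N, g (y n)‖ ≤ (2 * (ρ + η) + ε / 8) * N + ε / 8 * N := by
    have e1 : ∑ n ∈ range N, g (y n) = ∑ h ∈ a.support, a h * ∑ n ∈ range N, e (h * y n) := by
      simp_rw [hgv, fourier_eq_e]
      rw [sum_comm]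
      apply sum_congr rfl
      intro h _
      rw [mul_sum]
    have e2 : ∀ h ∈ a.support.erase 0, ‖a h * ∑ n ∈ range N, e (h * y n)‖
        ≤ ‖a h‖ * (ε / (8 * (Sa + 1)) * N) := by
      intro h hh
      rw [norm_mul]
      exact mul_le_mul_of_nonneg_left (hy h hh) (norm_nonneg _)
    have e3 : ‖∑ h ∈ a.support.erase 0, a h * ∑ n ∈ range N, e (h * y n)‖ ≤ ε / 8 * N := by
      refine (norm_sum_le _ _).trans ((sum_le_sum e2).trans ?_)
      rw [← sum_mul]
      have : ∑ h ∈ a.support.erase 0, ‖a h‖ ≤ Sa :=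
        sum_le_sum_of_subset_of_nonneg (erase_subset _ _) (fun _ _ _ => norm_nonneg _)
      calc (∑ h ∈ a.support.erase 0, ‖a h‖) * (ε / (8 * (Sa + 1)) * N)
          ≤ (Sa + 1) * (ε / (8 * (Sa + 1)) * N) := by
            apply mul_le_mul_of_nonneg_right _ (by positivity); linarith
        _ = ε / 8 * N := by field_simp
    have e4 : ‖a 0 * ∑ n ∈ range N, e (((0:ℤ):ℝ) * y n)‖ ≤ (2 * (ρ + η) + ε / 8) * N := by
      simp only [Int.cast_zero, zero_mul, e_zero, sum_const, card_range, nsmul_eq_mul, mul_one]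
      rw [norm_mul, Complex.norm_natCast]
      exact mul_le_mul_of_nonneg_right ha0 (Nat.cast_nonneg _)
    rw [e1]
    by_cases h0 : (0:ℤ) ∈ a.support
    · rw [← add_sum_erase _ _ h0]
      exact (norm_add_le _ _).trans (add_le_add e4 e3)
    · rw [erase_eq_of_notMem h0] at e3
      have : 0 ≤ (2 * (ρ + η) + ε / 8) * (N:ℝ) := by positivity
      linarith
  have s5 : ‖∑ n ∈ range N, F (y n)‖ ≤ ‖∑ n ∈ range N, g (y n)‖ + N * (ε / 8) := by
    calc ‖∑ n ∈ range N, F (y n)‖
        = ‖∑ n ∈ range N, g (y n) + (∑ n ∈ range N, F (y n) - ∑ n ∈ range N, g (y n))‖ := by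
          congr 1; ring
      _ ≤ _ := (norm_add_le _ _).trans (add_le_add (le_refl _) s3)
  rw [s2] at s1
  have hN : (0:ℝ) ≤ N := Nat.cast_nonneg _
  have : (2 * (ρ + η) + ε / 8) * N + ε / 8 * N + N * (ε / 8) ≤ (2 * ρ + ε) * N := by
    rw [hη]; nlinarith
  linarith

end Pool.Agent.R922.BN
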