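import Pool.Agent.R922.BN.Key
import Pool.Agent.R922.BN.Weyl

/-!
# Second moments over finite words and bad words
-/

open Finset

namespace Pool.Agent.R922.BN

variable {b : ℕ} {p : Fin b → ℝ}

/-- weight of a word -/
noncomputable def wt (p : Fin b → ℝ) {L : ℕ} (σ : Fin L → Fin b) : ℝ := ∏ j, p (σ j)

/-- value of a word -/
noncomputable def xw {L : ℕ} (σ : Fin L → Fin b) : ℝ := ∑ j : Fin L, ((σ j : ℕ) : ℝ) / (b : ℝ) ^ ((j : ℕ) + 1)

lemma wt_nonneg (hp : ∀ d, 0 < p d) {L : ℕ} (σ : Fin L → Fin b) : 0 ≤ wt p σ :=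
  prod_nonneg fun _ _ => (hp _).le

lemma char_words (p : Fin b → ℝ) (L : ℕ) (t : ℤ) :
    ‖∑ σ : Fin L → Fin b, (wt p σ : ℂ) * e (t * xw σ)‖ = PP p L t := by
  have h1 : ∑ σ : Fin L → Fin b, (wt p σ : ℂ) * e (t * xw σ)
      = ∏ j : Fin L, ph p ((t : ℝ) / (b : ℝ) ^ ((j : ℕ) + 1)) := by
    unfold ph
    rw [Finset.prod_univ_sum]
    simp only [Fintype.piFinset_univ]
    apply sum_congr rfl
    intro σ _
    unfold wt xw
    rw [mul_sum, e_sum, Complex.ofReal_prod, ← prod_mul_distrib]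
    apply prod_congr rfl
    intro j _
    congr 2; ring
  rw [h1, norm_prod]
  unfold PP
  rw [Finset.prod_range]

lemma second_moment (p : Fin b → ℝ) (L N : ℕ) (s : ℕ) (h : ℤ) :
    ∑ σ : Fin L → Fin b, wt p σ * ‖∑ n ∈ range N, e (h * ((s : ℝ) ^ n * xw σ))‖ ^ 2
      ≤ ∑ m ∈ range N, ∑ n ∈ range N, PP p L (h * ((s : ℤ) ^ n - (s : ℤ) ^ m)) := by
  have h1 : ((∑ σ : Fin L → Fin b, wt p σ * ‖∑ n ∈ range N, e (h * ((s : ℝ) ^ n * xw σ))‖ ^ 2 : ℝ) : ℂ)
      = ∑ m ∈ range N, ∑ n ∈ range N, ∑ σ : Fin L → Fin b, (wt p σ : ℂ) *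
        e (((h * ((s : ℤ) ^ n - (s : ℤ) ^ m) : ℤ) : ℝ) * xw σ) := by
    have h2 : ∀ σ : Fin L → Fin b, ((‖∑ n ∈ range N, e (h * ((s : ℝ) ^ n * xw σ))‖ ^ 2 : ℝ) : ℂ)
        = ∑ m ∈ range N, ∑ n ∈ range N,
          e (((h * ((s : ℤ) ^ n - (s : ℤ) ^ m) : ℤ) : ℝ) * xw σ) := by
      intro σ
      have h3 := Complex.mul_conj (∑ n ∈ range N, e (h * ((s : ℝ) ^ n * xw σ)))
      rw [Complex.normSq_eq_norm_sq] at h3
      rw [← h3, map_sum, sum_mul_sum, sum_comm]
      apply sum_congr rfl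
      intro m _
      apply sum_congr rfl
      intro n _
      rw [← e_neg, ← e_add]
      congr 1; push_cast; ring
    push_cast
    push_cast at h2
    simp_rw [h2, mul_sum]
    rw [sum_comm]
    apply sum_congr rfl
    intro m _
    rw [sum_comm]
  have h4 : (∑ σ : Fin L → Fin b, wt p σ * ‖∑ n ∈ range N, e (h * ((s : ℝ) ^ n * xw σ))‖ ^ 2)
      ≤ ‖((∑ σ : Fin L → Fin b, wt p σ * ‖∑ n ∈ range N, e (h * ((s : ℝ) ^ n * xw σ))‖ ^ 2 : ℝ) : ℂ)‖ := by
    rw [Complex.norm_real]; exact le_abs_self _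
  refine h4.trans ?_
  rw [h1]
  refine (norm_sum_le _ _).trans (sum_le_sum fun m _ => (norm_sum_le _ _).trans
    (sum_le_sum fun n _ => ?_))
  rw [char_words]

/-- uniform constants for a finite set of frequencies -/
lemma double_sum_fin (hb : 2 ≤ b) (hp : ∀ d, 0 < p d) (hsum : ∑ d, p d = 1) {s : ℕ} (hs : 2 ≤ s)
    (hind : MultIndep b s) (S : Finset ℤ) (hS : ∀ h ∈ S, h ≠ 0) :
    ∃ (C κ : ℝ) (K0 e0 : ℕ), 0 < C ∧ 0 < κ ∧ κ < 1 ∧
      ∀ h ∈ S, ∀ N K L : ℕ, K0 ≤ K → b ^ K ≤ N → K + e0 * N ≤ L →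
        ∑ m ∈ range N, ∑ n ∈ range N, PP p L (h * ((s : ℤ) ^ n - (s : ℤ) ^ m))
          ≤ N + C * κ ^ K * N ^ 2 := by
  classical
  induction S using Finset.induction_on with
  | empty => exact ⟨1, 1/2, 0, 0, one_pos, by norm_num, by norm_num, by simp⟩
  | insert h0 S _ ih =>
    obtain ⟨C, κ, K0, e0, hC, hκ, hκ1, H⟩ := ih (fun h hh => hS h (mem_insert_of_mem hh))
    obtain ⟨C', κ', K0', e0', hC', hκ', hκ1', H'⟩ :=
      double_sum hb hp hsum hs hind (hS h0 (mem_insert_self _ _))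
    refine ⟨max C C', max κ κ', max K0 K0', max e0 e0', lt_max_of_lt_left hC,
      lt_max_of_lt_left hκ, max_lt hκ1 hκ1', ?_⟩
    intro h hh N K L hK hN hL
    rcases mem_insert.1 hh with rfl | hh
    · refine (H' N K L ((le_max_right _ _).trans hK) hN ?_).trans ?_
      · exact le_trans (Nat.add_le_add_left (Nat.mul_le_mul_right _ (le_max_right _ _)) _) hL
      · gcongr
        · exact le_max_right _ _
        · exact le_max_right _ _
    · refine (H h hh N K L ((le_max_left _ _).trans hK) hN ?_).trans ?_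
      · exact le_trans (Nat.add_le_add_left (Nat.mul_le_mul_right _ (le_max_left _ _)) _) hL
      · gcongr
        · exact le_max_left _ _
        · exact le_max_left _ _

/-! ### Combinatorial predicates -/

/-- the integer with base `b` digits `σ` -/
def Aval (b : ℕ) (σ : List ℕ) : ℕ := σ.foldl (fun a d => a * b + d) 0

/-- prefix of length `L` -/
def pre (X : ℕ → ℕ) (L : ℕ) : List ℕ := (List.range L).map X

lemma length_pre (X : ℕ → ℕ) (L : ℕ) : (pre X L).length = L := by simp [pre]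

lemma Aval_pre (hb : 2 ≤ b) (X : ℕ → ℕ) (L : ℕ) :
    (Aval b (pre X L) : ℝ) / (b : ℝ) ^ L = ∑ j ∈ range L, (X j : ℝ) / (b : ℝ) ^ (j + 1) := by
  have hb0 : (b:ℝ) ≠ 0 := by positivity
  induction L with
  | zero => simp [Aval, pre]
  | succ L ih =>
    have h1 : Aval b (pre X (L + 1)) = Aval b (pre X L) * b + X L := by
      unfold Aval pre
      rw [List.range_succ, List.map_append, List.foldl_append]; rfl
    rw [sum_range_succ, ← ih, h1]
    push_cast
    rw [pow_succ]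
    field_simp

/-- the extension of a word -/
def ext {L : ℕ} (σ : Fin L → Fin b) (j : ℕ) : ℕ := if h : j < L then (σ ⟨j, h⟩ : ℕ) else 0

lemma Aval_ext (hb : 2 ≤ b) {L : ℕ} (σ : Fin L → Fin b) :
    (Aval b (pre (ext σ) L) : ℝ) / (b : ℝ) ^ L = xw σ := by
  rw [Aval_pre hb, Finset.sum_range]
  unfold xw
  apply sum_congr rfl
  intro j _
  simp [ext]

/-- `hit` -/
def hit (b s r R u n : ℕ) (σ : List ℕ) : Prop :=
  (s ^ (n + R) * Aval b σ / b ^ σ.length) / s ^ (R - r) % s ^ r = u ∨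
    (s ^ (n + R) * Aval b σ / b ^ σ.length + 1) / s ^ (R - r) % s ^ r = u

instance (b s r R u n : ℕ) (σ : List ℕ) : Decidable (hit b s r R u n σ) := by
  unfold hit; infer_instance

/-- number of hits -/
def cnt (b s r R u N : ℕ) (σ : List ℕ) : ℕ :=
  ((List.range N).filter (fun n => hit b s r R u n σ)).length

/-- the bad words -/
def bad (b s r R u E J c i : ℕ) (σ : List ℕ) : Prop :=
  σ.length = c * i ^ J ∧ i ^ J * (E + s ^ r) < cnt b s r R u (i ^ J) σ * (s ^ r * E)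

instance (b s r R u E J c i : ℕ) (σ : List ℕ) : Decidable (bad b s r R u E J c i σ) := by
  unfold bad; infer_instance

lemma cnt_eq_card (b s r R u N : ℕ) (σ : List ℕ) :
    cnt b s r R u N σ = ((range N).filter (fun n => hit b s r R u n σ)).card := by
  unfold cnt
  rw [← List.toFinset_card_of_nodup (List.Nodup.filter _ List.nodup_range)]
  congr 1
  ext n
  simp

/-- a hit is close to the centre -/
lemma close_of_hit {s r R u : ℕ} (hs : 2 ≤ s) (hrR : r ≤ R) {y : ℝ} (hy : 0 ≤ y) {v : ℕ}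
    (hv : v = ⌊(s : ℝ) ^ R * y⌋₊)
    (hh : v / s ^ (R - r) % s ^ r = u ∨ (v + 1) / s ^ (R - r) % s ^ r = u) :
    ‖((y : ℝ) : UnitAddCircle) - (((u + 1 / 2) / (s : ℝ) ^ r : ℝ) : UnitAddCircle)‖
      ≤ 1 / (2 * (s : ℝ) ^ r) + 1 / (s : ℝ) ^ R := by
  have hs0 : (0:ℝ) < s := by positivity
  have hv1 : (v : ℝ) ≤ (s : ℝ) ^ R * y := by rw [hv]; exact Nat.floor_le (by positivity)
  have hv2 : (s : ℝ) ^ R * y < v + 1 := by rw [hv]; exact Nat.lt_floor_add_one _
  have hR : (s : ℝ) ^ R = (s : ℝ) ^ (R - r) * (s : ℝ) ^ r := by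
    rw [← pow_add]; congr 1; omega
  have key : ∀ w : ℕ, w / s ^ (R - r) % s ^ r = u → (w : ℝ) ≤ (s : ℝ) ^ R * y + 1 →
      (s : ℝ) ^ R * y < w + 1 → ∃ m : ℕ, |y - (u + 1 / 2) / (s : ℝ) ^ r - m|
      ≤ 1 / (2 * (s : ℝ) ^ r) + 1 / (s : ℝ) ^ R := by
    intro w hw h1 h2
    set q := w / s ^ (R - r) with hq
    set m := q / s ^ r with hm
    refine ⟨m, ?_⟩
    have hqm : (q : ℝ) = (s : ℝ) ^ r * m + u := by
      have := Nat.div_add_mod q (s ^ r)
      rw [hw] at this; exact_mod_cast this.symm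
    have hD : 0 < s ^ (R - r) := by positivity
    have hw1 : (s : ℝ) ^ (R - r) * q ≤ w := by
      have := Nat.mul_div_le w (s ^ (R - r))
      exact_mod_cast this
    have hw2 : (w : ℝ) + 1 ≤ (s : ℝ) ^ (R - r) * (q + 1) := by
      have := Nat.lt_mul_div_succ w hD
      exact_mod_cast this
    have hsr : (0:ℝ) < (s : ℝ) ^ r := by positivity
    have hsR : (0:ℝ) < (s : ℝ) ^ R := by positivity
    have e1 : (s : ℝ) ^ R * (y - (u + 1 / 2) / (s : ℝ) ^ r - m)
        = (s : ℝ) ^ R * y - (s : ℝ) ^ (R - r) * q - (s : ℝ) ^ (R - r) / 2 := by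
      rw [hqm, hR]; field_simp; ring
    have e2 : |(s : ℝ) ^ R * (y - (u + 1 / 2) / (s : ℝ) ^ r - m)| ≤ (s : ℝ) ^ (R - r) / 2 + 1 := by
      rw [e1, abs_le]; constructor <;> linarith
    rw [abs_mul, abs_of_pos hsR] at e2
    have e3 : 1 / (2 * (s : ℝ) ^ r) + 1 / (s : ℝ) ^ R = ((s : ℝ) ^ (R - r) / 2 + 1) / (s : ℝ) ^ R := by
      rw [hR]; field_simp
    rw [e3, le_div_iff₀ hsR]; linarith
  obtain ⟨m, hm⟩ : ∃ m : ℕ, |y - (u + 1 / 2) / (s : ℝ) ^ r - m|
      ≤ 1 / (2 * (s : ℝ) ^ r) + 1 / (s : ℝ) ^ R := by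
    rcases hh with hh | hh
    · exact key v hh (by linarith) (by linarith)
    · exact key (v + 1) hh (by push_cast; linarith) (by push_cast; linarith)
  rw [← AddCircle.coe_sub, UnitAddCircle.norm_eq]
  refine (round_le _ (m : ℤ)).trans ?_
  push_cast
  exact hm

lemma floor_word {s b n R L : ℕ} (A : ℕ) :
    s ^ (n + R) * A / b ^ L = ⌊(s : ℝ) ^ R * ((s : ℝ) ^ n * ((A : ℝ) / (b : ℝ) ^ L))⌋₊ := by
  have : (s : ℝ) ^ R * ((s : ℝ) ^ n * ((A : ℝ) / (b : ℝ) ^ L))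
      = ((s ^ (n + R) * A : ℕ) : ℝ) / ((b ^ L : ℕ) : ℝ) := by
    push_cast; rw [pow_add]; ring
  rw [this, Nat.floor_div_natCast, Nat.floor_natCast]

/-- The probability of the bad words. -/
theorem bad_words (hb : 2 ≤ b) (hp : ∀ d, 0 < p d) (hsum : ∑ d, p d = 1) {s : ℕ} (hs : 2 ≤ s)
    (hind : MultIndep b s) {r R u E : ℕ} (hrR : r ≤ R) (hE : 1 ≤ E) (hR : 4 * E ≤ s ^ R) :
    ∃ (J c i0 : ℕ) (C : ℝ), 1 ≤ J ∧ 1 ≤ c ∧ s ^ (1 + R) ≤ c ∧ 0 < C ∧ ∀ i : ℕ, i0 ≤ i → 1 ≤ i →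
      ∑ σ ∈ (univ : Finset (Fin (c * i ^ J) → Fin b)).filter
        (fun σ => bad b s r R u E J c i (pre (ext σ) (c * i ^ J))), wt p σ ≤ C / (i : ℝ) ^ 2 := by
  classical
  have hs0 : (0:ℝ) < s := by positivity
  have hE0 : (0:ℝ) < E := by exact_mod_cast hE
  obtain ⟨S, δ, hδ, hS, HW⟩ := weyl_fin (((u + 1 / 2) / (s : ℝ) ^ r : ℝ) : UnitAddCircle)
    (ρ := 1 / (2 * (s : ℝ) ^ r) + 1 / (s : ℝ) ^ R) (ε := 1 / (2 * E)) (by positivity)
    (by positivity)
  obtain ⟨C, κ, K0, e0, hC, hκ, hκ1, HD⟩ := double_sum_fin hb hp hsum hs hind S hS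
  obtain ⟨J0, hJ0⟩ := exists_pow_lt_of_lt_one (show (0:ℝ) < 1 / b ^ 2 by positivity) hκ1
  set J := J0 + 2 with hJ
  have hκJ : κ ^ J ≤ 1 / (b:ℝ) ^ 2 :=
    (pow_le_pow_of_le_one hκ.le hκ1.le (by omega)).trans hJ0.le
  set c := 1 + e0 + s ^ (1 + R) with hc
  refine ⟨J, c, b ^ K0, (S.card + 1) * ((1 + C * b ^ 2) / δ ^ 2), by omega, by omega, by omega,
    by positivity, ?_⟩
  intro i hi0 hi1
  have hi : (0:ℝ) < i := by exact_mod_cast hi1
  set N := i ^ J with hN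
  set L := c * N with hL
  set K := J * Nat.log b i with hK
  have hN1 : 1 ≤ N := Nat.one_le_pow _ _ hi1
  have hN0 : (0:ℝ) < N := by exact_mod_cast hN1
  have hKN : b ^ K ≤ N := by
    rw [hK, mul_comm, pow_mul]
    exact Nat.pow_le_pow_left (Nat.pow_log_le_self b (by omega)) J
  have hK0 : K0 ≤ K := by
    have : K0 ≤ Nat.log b i := by
      exact Nat.le_log_of_pow_le (by omega) hi0
    calc K0 ≤ Nat.log b i := this
      _ ≤ J * Nat.log b i := Nat.le_mul_of_pos_left _ (by omega)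
  have hKL : K + e0 * N ≤ L := by
    have h1 : K ≤ N := le_trans (Nat.lt_pow_self (by omega)).le hKN
    calc K + e0 * N ≤ N + e0 * N := by omega
      _ = (1 + e0) * N := by ring
      _ ≤ c * N := Nat.mul_le_mul_right _ (by omega)
  -- a bad word has a large exponential sum
  have hbig : ∀ σ : Fin L → Fin b, bad b s r R u E J c i (pre (ext σ) L) →
      ∃ h ∈ S, δ * N ≤ ‖∑ n ∈ range N, e (h * ((s : ℝ) ^ n * xw σ))‖ := by
    intro σ hσ
    by_contra hcon
    push Not at hcon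
    have h1 := HW N (fun n => (s : ℝ) ^ n * xw σ) (fun h hh => (hcon h hh).le)
    have hx0 : 0 ≤ xw σ := sum_nonneg fun _ _ => by positivity
    have h2 : (cnt b s r R u N (pre (ext σ) L) : ℝ)
        ≤ (((range N).filter (fun n => ‖(((s : ℝ) ^ n * xw σ : ℝ) : UnitAddCircle)
          - (((u + 1 / 2) / (s : ℝ) ^ r : ℝ) : UnitAddCircle)‖
            ≤ 1 / (2 * (s : ℝ) ^ r) + 1 / (s : ℝ) ^ R)).card : ℝ) := by
      rw [cnt_eq_card]
      have : (range N).filter (fun n => hit b s r R u n (pre (ext σ) L)) ⊆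
          (range N).filter (fun n => ‖(((s : ℝ) ^ n * xw σ : ℝ) : UnitAddCircle)
          - (((u + 1 / 2) / (s : ℝ) ^ r : ℝ) : UnitAddCircle)‖
            ≤ 1 / (2 * (s : ℝ) ^ r) + 1 / (s : ℝ) ^ R) := by
        intro n hn
        rw [mem_filter] at hn ⊢
        refine ⟨hn.1, ?_⟩
        have hh := hn.2
        unfold hit at hh
        rw [length_pre] at hh
        refine close_of_hit hs hrR (by positivity) ?_ hh
        rw [floor_word, Aval_ext hb]
      exact_mod_cast card_le_card this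
    have h3 := hσ.2
    have h4 : ((N * (E + s ^ r) : ℕ) : ℝ) < ((cnt b s r R u N (pre (ext σ) L) * (s ^ r * E) : ℕ) : ℝ) := by
      exact_mod_cast h3
    push_cast at h4
    have h5 : (2 * (1 / (2 * (s : ℝ) ^ r) + 1 / (s : ℝ) ^ R) + 1 / (2 * E)) * N
        ≤ (1 / (s : ℝ) ^ r + 1 / E) * N := by
      apply mul_le_mul_of_nonneg_right _ hN0.le
      have h6 : (1:ℝ) / (s : ℝ) ^ R ≤ 1 / (4 * E) := by
        apply one_div_le_one_div_of_le (by positivity)
        exact_mod_cast hR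
      have h7 : (1:ℝ) / (4 * E) + 1 / (4 * E) = 1 / (2 * E) := by field_simp; norm_num
      have h8 : (1:ℝ) / (2 * E) + 1 / (2 * E) = 1 / E := by field_simp; norm_num
      have h9 : (2:ℝ) * (1 / (2 * (s : ℝ) ^ r)) = 1 / (s : ℝ) ^ r := by field_simp
      linarith
    have h6 := (h2.trans h1).trans h5
    have h7 : (cnt b s r R u N (pre (ext σ) L) : ℝ) * ((s:ℝ) ^ r * E)
        ≤ (1 / (s : ℝ) ^ r + 1 / E) * N * ((s:ℝ) ^ r * E) :=
      mul_le_mul_of_nonneg_right h6 (by positivity)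
    have h8 : (1 / (s : ℝ) ^ r + 1 / E) * N * ((s:ℝ) ^ r * E) = N * (E + (s:ℝ) ^ r) := by
      field_simp
    rw [h8] at h7
    linarith
  -- Markov
  have hM : ∑ σ ∈ (univ : Finset (Fin L → Fin b)).filter
        (fun σ => bad b s r R u E J c i (pre (ext σ) L)), wt p σ
      ≤ ∑ h ∈ S, (N + C * κ ^ K * N ^ 2) / (δ * N) ^ 2 := by
    calc _ ≤ ∑ σ ∈ (univ : Finset (Fin L → Fin b)).filter
            (fun σ => bad b s r R u E J c i (pre (ext σ) L)),
          ∑ h ∈ S, wt p σ * ‖∑ n ∈ range N, e (h * ((s : ℝ) ^ n * xw σ))‖ ^ 2 / (δ * N) ^ 2 := by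
          apply sum_le_sum
          intro σ hσ
          obtain ⟨h, hh, hle⟩ := hbig σ (mem_filter.1 hσ).2
          have hw := wt_nonneg hp σ
          refine le_trans ?_ (single_le_sum (f := fun h : ℤ =>
            wt p σ * ‖∑ n ∈ range N, e (h * ((s : ℝ) ^ n * xw σ))‖ ^ 2 / (δ * N) ^ 2)
            (fun h _ => by positivity) hh)
          rw [le_div_iff₀ (by positivity)]
          apply mul_le_mul_of_nonneg_left _ hw
          exact pow_le_pow_left₀ (by positivity) hle 2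
      _ ≤ ∑ σ : Fin L → Fin b, ∑ h ∈ S,
          wt p σ * ‖∑ n ∈ range N, e (h * ((s : ℝ) ^ n * xw σ))‖ ^ 2 / (δ * N) ^ 2 := by
          apply sum_le_sum_of_subset_of_nonneg (filter_subset _ _)
          intro σ _ _
          exact sum_nonneg fun h _ => by have := wt_nonneg hp σ; positivity
      _ = ∑ h ∈ S, (∑ σ : Fin L → Fin b,
          wt p σ * ‖∑ n ∈ range N, e (h * ((s : ℝ) ^ n * xw σ))‖ ^ 2) / (δ * N) ^ 2 := by
          rw [sum_comm]
          apply sum_congr rfl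
          intro h _
          rw [sum_div]
      _ ≤ _ := by
          apply sum_le_sum
          intro h hh
          apply div_le_div_of_nonneg_right _ (by positivity)
          exact (second_moment p L N s h).trans (HD h hh N K L hK0 hKN hKL)
  refine hM.trans ?_
  rw [sum_const, nsmul_eq_mul]
  -- final estimate
  have hκK : κ ^ K ≤ (b:ℝ) ^ 2 / i ^ 2 := by
    rw [hK, pow_mul]
    calc (κ ^ J) ^ Nat.log b i ≤ (1 / (b:ℝ) ^ 2) ^ Nat.log b i :=
          pow_le_pow_left₀ (by positivity) hκJ _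
      _ = 1 / ((b:ℝ) ^ Nat.log b i) ^ 2 := by rw [one_div_pow, ← pow_mul, ← pow_mul, mul_comm]
      _ ≤ 1 / ((i:ℝ) / b) ^ 2 := by
          apply one_div_le_one_div_of_le (by positivity)
          apply pow_le_pow_left₀ (by positivity)
          rw [div_le_iff₀ (by positivity), ← pow_succ]
          exact_mod_cast (Nat.lt_pow_succ_log_self (by omega) i).le
      _ = _ := by field_simp
  have hNi : (i:ℝ) ^ 2 ≤ N := by
    rw [hN]; push_cast
    exact pow_le_pow_right₀ (by exact_mod_cast hi1) (by omega)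
  have h1 : ((N:ℝ) + C * κ ^ K * N ^ 2) / (δ * N) ^ 2 ≤ ((1 + C * b ^ 2) / δ ^ 2) / i ^ 2 := by
    have e1 : ((N:ℝ) + C * κ ^ K * N ^ 2) / (δ * N) ^ 2 = (1 / N + C * κ ^ K) / δ ^ 2 := by
      field_simp
    rw [e1, div_right_comm]
    apply div_le_div_of_nonneg_right _ (by positivity)
    rw [add_div]
    apply add_le_add
    · exact one_div_le_one_div_of_le (by positivity) hNi
    · calc C * κ ^ K ≤ C * ((b:ℝ) ^ 2 / i ^ 2) := mul_le_mul_of_nonneg_left hκK hC.le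
        _ = _ := by ring
  calc (S.card : ℝ) * (((N:ℝ) + C * κ ^ K * N ^ 2) / (δ * N) ^ 2)
      ≤ (S.card : ℝ) * (((1 + C * b ^ 2) / δ ^ 2) / i ^ 2) :=
        mul_le_mul_of_nonneg_left h1 (Nat.cast_nonneg _)
    _ ≤ ((S.card : ℝ) + 1) * (((1 + C * b ^ 2) / δ ^ 2) / i ^ 2) := by
        apply mul_le_mul_of_nonneg_right _ (by positivity); linarith
    _ = _ := by ring

end Pool.Agent.R922.BN
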